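import Pool.Agent.Helper54.Cover.Rho

open Metric Set MeasureTheory

namespace CoverConn

lemma arccos_cover {m : ℕ} (φ c : Fin m → ℝ) (h : ∀ θ : ℝ, ∃ i, c i ≤ Real.cos (θ - φ i)) :
    Real.pi ≤ ∑ i, Real.arccos (c i) := by
  have hfact : Fact (0 < 2 * Real.pi) := ⟨Real.two_pi_pos⟩
  have hsub : (Set.univ : Set (AddCircle (2 * Real.pi))) ⊆
      ⋃ i, closedBall ((φ i : ℝ) : AddCircle (2 * Real.pi)) (Real.arccos (c i)) := by
    intro t _
    obtain ⟨θ, rfl⟩ := QuotientAddGroup.mk_surjective t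
    obtain ⟨i, hi⟩ := h θ
    rw [mem_iUnion]
    refine ⟨i, ?_⟩
    rw [mem_closedBall, dist_eq_norm]
    have h1 : ((QuotientAddGroup.mk θ : AddCircle (2 * Real.pi)) - ((φ i : ℝ) : AddCircle (2 * Real.pi)))
        = ((θ - φ i : ℝ) : AddCircle (2 * Real.pi)) := rfl
    rw [h1]
    have h2 := AddCircle.norm_eq (2 * Real.pi) (x := θ - φ i)
    have h3 := AddCircle.norm_le_half_period (2 * Real.pi) (x := ((θ - φ i : ℝ) : AddCircle (2 * Real.pi)))
      (by positivity)
    set y := θ - φ i - round ((2 * Real.pi)⁻¹ * (θ - φ i)) * (2 * Real.pi) with hy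
    rw [h2] at h3 ⊢
    rw [abs_of_pos Real.two_pi_pos] at h3
    have h4 : |y| ≤ Real.pi := by linarith
    have h5 : Real.cos |y| = Real.cos (θ - φ i) := by
      rw [Real.cos_abs, hy, Real.cos_sub_int_mul_two_pi]
    rw [← Real.arccos_cos (abs_nonneg y) h4, h5]
    exact Real.arccos_le_arccos hi
  have h1 := (measure_mono hsub).trans (measure_iUnion_fintype_le volume _)
  rw [AddCircle.measure_univ] at h1
  have h2 : ∀ i, volume (closedBall ((φ i : ℝ) : AddCircle (2 * Real.pi)) (Real.arccos (c i))) ≤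
      ENNReal.ofReal (2 * Real.arccos (c i)) := by
    intro i
    rw [AddCircle.volume_closedBall]
    exact ENNReal.ofReal_le_ofReal (min_le_right _ _)
  have h3 := h1.trans (Finset.sum_le_sum fun i _ => h2 i)
  rw [← ENNReal.ofReal_sum_of_nonneg (fun i _ => by have := Real.arccos_nonneg (c i); positivity),
    ENNReal.ofReal_le_ofReal_iff (Finset.sum_nonneg fun i _ => by
      have := Real.arccos_nonneg (c i); positivity), ← Finset.mul_sum] at h3
  linarith

/-- unit vector of angle `θ` -/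
noncomputable def e (θ : ℝ) : Plane := !₂[Real.cos θ, Real.sin θ]

lemma dist_sq (s d θ φ : ℝ) :
    dist (s • e θ) (d • e φ) ^ 2 = s ^ 2 + d ^ 2 - 2 * s * d * Real.cos (θ - φ) := by
  rw [EuclideanSpace.dist_eq, Real.sq_sqrt (by positivity), Real.cos_sub]
  simp only [e, Fin.sum_univ_two, PiLp.smul_apply, smul_eq_mul, Real.dist_eq, sq_abs]
  simp
  nlinarith [Real.sin_sq_add_cos_sq θ, Real.sin_sq_add_cos_sq φ]

lemma norm_smul_e (s θ : ℝ) (hs : 0 ≤ s) : ‖s • e θ‖ = s := by
  have h := dist_sq s 0 θ 0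
  rw [zero_smul, dist_zero_right] at h
  have h2 : ‖s • e θ‖ ^ 2 = s ^ 2 := by rw [h]; ring
  exact (sq_eq_sq₀ (norm_nonneg _) hs).1 h2

lemma exists_polar (x : Plane) : ∃ φ, x = ‖x‖ • e φ := by
  let z : ℂ := ⟨x 0, x 1⟩
  have hz : ‖z‖ = ‖x‖ := by
    rw [EuclideanSpace.norm_eq, Complex.norm_def, Complex.normSq_apply]
    simp [Fin.sum_univ_two, z, sq]
  refine ⟨Complex.arg z, ?_⟩
  ext i
  fin_cases i
  · simp only [e, PiLp.smul_apply, smul_eq_mul]
    have := Complex.norm_mul_cos_arg z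
    rw [hz] at this
    simpa [z] using this.symm
  · simp only [e, PiLp.smul_apply, smul_eq_mul]
    have := Complex.norm_mul_sin_arg z
    rw [hz] at this
    simpa [z] using this.symm

/-- Cosine bound for a disc meeting the circle of radius `s`. -/
noncomputable def cB (s d : ℝ) : ℝ := if d = 0 then 2 else (s ^ 2 + d ^ 2 - 1) / (2 * s * d)

/-- Cosine bound for a disc meeting the unit circle. -/
noncomputable def cA (d : ℝ) : ℝ := if d = 0 then 2 else d / 2

lemma outer_cover {m : ℕ} {s : ℝ} (hs : 1 < s) {x : Fin m → Plane}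
    (hx : ∀ z : Plane, ‖z‖ ≤ s → ‖z‖ ≤ 1 ∨ ∃ i, dist z (x i) ≤ 1) :
    Real.pi ≤ ∑ i, Real.arccos (cB s ‖x i‖) := by
  choose φ hφ using fun i => exists_polar (x i)
  apply arccos_cover φ
  intro θ
  have h1 := norm_smul_e s θ (by linarith)
  rcases hx (s • e θ) h1.le with h | ⟨i, hi⟩
  · rw [h1] at h; linarith
  · refine ⟨i, ?_⟩
    rw [hφ i] at hi
    have h2 := dist_sq s ‖x i‖ θ (φ i)
    have h3 : dist (s • e θ) (‖x i‖ • e (φ i)) ^ 2 ≤ 1 := by
      have := dist_nonneg (x := s • e θ) (y := ‖x i‖ • e (φ i)); nlinarith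
    rw [h2] at h3
    unfold cB
    split_ifs with h0
    · rw [h0] at h3; nlinarith
    · have hd : 0 < ‖x i‖ := lt_of_le_of_ne (norm_nonneg _) (Ne.symm h0)
      rw [div_le_iff₀ (by positivity)]
      linarith

lemma inner_cover {m : ℕ} {s : ℝ} (hs : 1 < s) {x : Fin m → Plane}
    (hx : ∀ z : Plane, ‖z‖ ≤ s → ‖z‖ ≤ 1 ∨ ∃ i, dist z (x i) ≤ 1) :
    Real.pi ≤ ∑ i, Real.arccos (cA ‖x i‖) := by
  choose φ hφ using fun i => exists_polar (x i)
  apply arccos_cover φ
  intro θ
  by_contra hcon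
  push Not at hcon
  have hev : ∀ i, ∀ᶠ t in nhdsWithin (1 : ℝ) (Ioi 1), 1 < dist (t • e θ) (x i) ^ 2 := by
    intro i
    have hi := hcon i
    unfold cA at hi
    split_ifs at hi with h0
    · have : x i = 0 := by simpa using h0
      filter_upwards [self_mem_nhdsWithin] with t ht
      have ht' : (1 : ℝ) < t := ht
      rw [this, dist_zero_right, norm_smul_e t θ (by linarith)]
      nlinarith
    · have hd : 0 < ‖x i‖ := lt_of_le_of_ne (norm_nonneg _) (Ne.symm h0)
      have hcont : ContinuousAt (fun t : ℝ => dist (t • e θ) (x i) ^ 2) 1 := by fun_prop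
      have h1 : 1 < dist ((1 : ℝ) • e θ) (x i) ^ 2 := by
        rw [hφ i, dist_sq]
        nlinarith
      exact (hcont.eventually (lt_mem_nhds h1)).filter_mono nhdsWithin_le_nhds
  have hall := (Filter.eventually_all.2 hev)
  have h3 : ∀ᶠ t in nhdsWithin (1 : ℝ) (Ioi 1), t ∈ Ioo 1 s := Ioo_mem_nhdsGT hs
  obtain ⟨t, ht, h1t, hts⟩ := (hall.and h3).exists
  have hn := norm_smul_e t θ (by linarith)
  rcases hx (t • e θ) (by rw [hn]; exact hts.le) with h | ⟨i, hi⟩
  · rw [hn] at h; linarith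
  · have := ht i
    have h5 := dist_nonneg (x := t • e θ) (y := x i)
    nlinarith

/-- upper bound for the half-angle of a disc on the circle of radius `s` -/
lemma arccos_cB_le {s d : ℝ} (hs : 1 < s) (hd : 0 ≤ d) :
    Real.arccos (cB s d) ≤ Real.arcsin (1 / s) := by
  have hs0 : 0 < s := by linarith
  rw [Real.arcsin_eq_arccos (by positivity)]
  apply Real.arccos_le_arccos
  unfold cB
  split_ifs with h0
  · rw [Real.sqrt_le_left (by norm_num)]
    have : 0 ≤ (1 / s) ^ 2 := by positivity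
    linarith
  · have hd : 0 < d := lt_of_le_of_ne hd (Ne.symm h0)
    apply Real.sqrt_le_iff.2
    constructor
    · apply div_nonneg _ (by positivity)
      nlinarith
    · rw [div_pow, div_pow, le_div_iff₀ (by positivity)]
      have : (1 - 1 ^ 2 / s ^ 2) * (2 * s * d) ^ 2 = 4 * d ^ 2 * (s ^ 2 - 1) := by
        field_simp; ring
      rw [this]
      nlinarith [sq_nonneg (s ^ 2 - 1 - d ^ 2)]

/-- `ρ sin (π/m) ≤ 1`. -/
lemma sin_bound {m : ℕ} (hm : 2 ≤ m) {ρ : ℝ} (hρ : ρ ∈ radii m) (h1 : 1 < ρ) :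
    ρ * Real.sin (Real.pi / m) ≤ 1 := by
  obtain ⟨x, hx⟩ := hρ
  have h2 := outer_cover h1 hx
  have h3 : ∑ i, Real.arccos (cB ρ ‖x i‖) ≤ m * Real.arcsin (1 / ρ) := by
    calc _ ≤ ∑ i : Fin m, Real.arcsin (1 / ρ) :=
          Finset.sum_le_sum fun i _ => arccos_cB_le h1 (norm_nonneg _)
      _ = _ := by simp
  have hm0 : (0 : ℝ) < m := by positivity
  have h4 : Real.pi / m ≤ Real.arcsin (1 / ρ) := by
    rw [div_le_iff₀ hm0, mul_comm]; linarith
  have hρ0 : 0 < ρ := by linarith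
  have h5 : Real.sin (Real.pi / m) ≤ 1 / ρ := by
    have := Real.sin_le_sin_of_le_of_le_pi_div_two (x := Real.pi / m) (y := Real.arcsin (1 / ρ))
      (by have := Real.pi_pos; have : 0 < Real.pi / m := by positivity
          linarith) (Real.arcsin_le_pi_div_two _) h4
    rwa [Real.sin_arcsin (by have : 0 < 1 / ρ := by positivity
                             linarith) (by rw [div_le_one hρ0]; linarith)] at this
  rw [le_div_iff₀ hρ0] at h5
  linarith

end CoverConn
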