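import Pool.Agent.Helper54.Cover.Defs

open Metric Set MeasureTheory

namespace CoverConn

lemma volume_line (a b : Plane) : volume ((line[ℝ, a, b] : AffineSubspace ℝ Plane) : Set Plane) = 0 := by
  apply Measure.addHaar_affineSubspace
  intro h
  have h1 : (line[ℝ, a, b]).direction = ⊤ := by rw [h]; exact AffineSubspace.direction_top _ _ _
  have h2 : Module.finrank ℝ (line[ℝ, a, b]).direction ≤ 1 := by
    rw [direction_affineSpan]
    exact (collinear_iff_finrank_le_one.1 (collinear_pair ℝ a b))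
  rw [h1, finrank_top] at h2
  simp at h2

lemma volume_segment (a b : Plane) : volume (segment ℝ a b) = 0 := by
  apply measure_mono_null _ (volume_line a b)
  rw [segment_eq_image_lineMap]
  rintro _ ⟨t, -, rfl⟩
  exact AffineMap.lineMap_mem_affineSpan_pair t a b

/-- the linear map with columns `u`, `v` -/
noncomputable def mkL (u v : Plane) : Plane →ₗ[ℝ] Plane :=
  Matrix.toEuclideanLin !![u 0, v 0; u 1, v 1]

lemma mkL_apply (u v y : Plane) : mkL u v y = y 0 • u + y 1 • v := by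
  ext i
  fin_cases i
  · simp [mkL, Matrix.toEuclideanLin, Matrix.mulVec, dotProduct]; ring
  · simp [mkL, Matrix.toEuclideanLin, Matrix.mulVec, dotProduct]; ring

lemma mkL_det (u v : Plane) : LinearMap.det (mkL u v) = u 0 * v 1 - u 1 * v 0 := by
  unfold mkL
  rw [Matrix.toEuclideanLin_eq_toLin, LinearMap.det_toLin, Matrix.det_fin_two_of]
  ring

/-- the standard unit square, its volume is 1 -/
def sq : Set Plane := {y | 0 ≤ y 0 ∧ y 0 ≤ 1 ∧ 0 ≤ y 1 ∧ y 1 ≤ 1}

lemma volume_sq : volume sq = 1 := by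
  have h : sq = (@WithLp.ofLp 2 (Fin 2 → ℝ)) ⁻¹' (Set.Icc (fun _ => (0 : ℝ)) (fun _ => (1 : ℝ))) := by
    ext y
    simp only [sq, mem_ofPred_eq, mem_preimage, mem_Icc, Pi.le_def, Fin.forall_fin_two]
    tauto
  rw [h, (PiLp.volume_preserving_ofLp (Fin 2)).measure_preimage
    (measurableSet_Icc.nullMeasurableSet), Real.volume_Icc_pi]
  simp

/-- the standard triangle -/
def tri : Set Plane := {y | 0 ≤ y 0 ∧ 0 ≤ y 1 ∧ y 0 + y 1 ≤ 1}

def tri' : Set Plane := {y | y 0 ≤ 1 ∧ y 1 ≤ 1 ∧ 1 ≤ y 0 + y 1}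

lemma measurableSet_tri : MeasurableSet tri := by
  apply IsClosed.measurableSet
  have : tri = {y : Plane | 0 ≤ y 0} ∩ ({y : Plane | 0 ≤ y 1} ∩ {y : Plane | y 0 + y 1 ≤ 1}) := by
    ext y; simp [tri]
  rw [this]
  refine IsClosed.inter ?_ (IsClosed.inter ?_ ?_)
  · exact isClosed_le continuous_const (by fun_prop)
  · exact isClosed_le continuous_const (by fun_prop)
  · exact isClosed_le (by fun_prop) continuous_const

lemma volume_tri : volume tri ≤ ENNReal.ofReal (1 / 2) := by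
  have h1 : tri' = (fun y : Plane => (!₂[1, 1] : Plane) - y) ⁻¹' tri := by
    ext y
    simp only [tri', tri, mem_ofPred_eq, mem_preimage, PiLp.sub_apply]
    simp
    intro _ _
    constructor <;> intro _ <;> linarith
  have h2 : volume tri' = volume tri := by
    rw [h1]
    exact (Measure.measurePreserving_sub_left volume (!₂[1, 1] : Plane)).measure_preimage
      measurableSet_tri.nullMeasurableSet
  have h3 : volume (tri ∩ tri') = 0 := by
    apply measure_mono_null _ (volume_line (!₂[1, 0] : Plane) (!₂[0, 1] : Plane))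
    rintro y ⟨⟨a1, a2, a3⟩, ⟨b1, b2, b3⟩⟩
    have : y = AffineMap.lineMap (!₂[1, 0] : Plane) (!₂[0, 1] : Plane) (y 1) := by
      ext i
      fin_cases i
      · simp [AffineMap.lineMap_apply]; linarith
      · simp [AffineMap.lineMap_apply]
    rw [this]
    exact AffineMap.lineMap_mem_affineSpan_pair _ _ _
  have h4 : tri ∪ tri' ⊆ sq := by
    rintro y (⟨a1, a2, a3⟩ | ⟨a1, a2, a3⟩)
    · exact ⟨a1, by linarith, a2, by linarith⟩
    · exact ⟨by linarith, a1, by linarith, a2⟩
  have h5 : volume (tri ∪ tri') + volume (tri ∩ tri') = volume tri + volume tri' :=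
    measure_union_add_inter' measurableSet_tri _
  rw [h3, h2, add_zero] at h5
  have h6 : volume tri + volume tri ≤ 1 := by
    rw [← h5, ← volume_sq]; exact measure_mono h4
  have hfin : volume tri ≠ ⊤ := by
    intro h; rw [h] at h6; simp at h6
  rw [← ENNReal.ofReal_toReal hfin]
  apply ENNReal.ofReal_le_ofReal
  have h7 := ENNReal.toReal_mono ENNReal.one_ne_top h6
  rw [ENNReal.toReal_add hfin hfin, ENNReal.toReal_one] at h7
  linarith

lemma volume_convexHull_le (a b c : Plane) :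
    volume (convexHull ℝ {a, b, c}) ≤
      ENNReal.ofReal (|(b - a) 0 * (c - a) 1 - (b - a) 1 * (c - a) 0| / 2) := by
  have hsub : convexHull ℝ {a, b, c} ⊆ (fun y => a + y) '' (mkL (b - a) (c - a) '' tri) := by
    have hconv : Convex ℝ ((fun y => a + y) '' (mkL (b - a) (c - a) '' tri)) := by
      apply Convex.translate
      apply Convex.linear_image
      intro x hx y hy s t hs ht hst
      obtain ⟨x0, x1, x2⟩ := hx
      obtain ⟨y0, y1, y2⟩ := hy
      refine ⟨?_, ?_, ?_⟩
      · simp only [PiLp.add_apply, PiLp.smul_apply, smul_eq_mul]; positivity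
      · simp only [PiLp.add_apply, PiLp.smul_apply, smul_eq_mul]; positivity
      · simp only [PiLp.add_apply, PiLp.smul_apply, smul_eq_mul]
        nlinarith
    apply convexHull_min _ hconv
    rintro x (rfl | rfl | rfl)
    · refine ⟨0, ⟨0, ⟨by simp, by simp, by simp⟩, by simp⟩, by simp⟩
    · refine ⟨x - a, ⟨!₂[1, 0], ⟨by simp, by simp, by simp⟩, ?_⟩, by simp⟩
      rw [mkL_apply]; simp
    · refine ⟨x - a, ⟨!₂[0, 1], ⟨by simp, by simp, by simp⟩, ?_⟩, by simp⟩
      rw [mkL_apply]; simp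
  refine (measure_mono hsub).trans ?_
  rw [image_add_left, measure_preimage_add, Measure.addHaar_image_linearMap, mkL_det,
    div_eq_mul_inv, ENNReal.ofReal_mul (abs_nonneg _)]
  gcongr
  have := volume_tri
  simpa using this

/-- Weitzenböck's inequality, in the form needed. -/
lemma det_le {a b c p : Plane} {s : ℝ} (ha : ‖a - p‖ ^ 2 ≤ s) (hb : ‖b - p‖ ^ 2 ≤ s)
    (hc : ‖c - p‖ ^ 2 ≤ s) :
    |(b - a) 0 * (c - a) 1 - (b - a) 1 * (c - a) 0| / 2 ≤ 3 * √3 / 4 * s := by
  rw [EuclideanSpace.norm_sq_eq] at ha hb hc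
  simp only [Fin.sum_univ_two, PiLp.sub_apply, Real.norm_eq_abs, sq_abs] at ha hb hc ⊢
  have h3 : √3 ^ 2 = 3 := Real.sq_sqrt (by norm_num)
  have h30 : 0 < √3 := Real.sqrt_pos.2 (by norm_num)
  set r := √3 with hr
  -- sum of the squares of the sides
  have hsum : (b 0 - a 0) ^ 2 + (b 1 - a 1) ^ 2 + (c 0 - a 0) ^ 2 + (c 1 - a 1) ^ 2 +
      (c 0 - b 0) ^ 2 + (c 1 - b 1) ^ 2 ≤ 9 * s := by
    nlinarith [sq_nonneg ((a 0 - p 0) + (b 0 - p 0) + (c 0 - p 0)),
      sq_nonneg ((a 1 - p 1) + (b 1 - p 1) + (c 1 - p 1))]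
  have key : 2 * r * |(b 0 - a 0) * (c 1 - a 1) - (b 1 - a 1) * (c 0 - a 0)| ≤ 9 * s := by
    refine le_trans ?_ hsum
    set u0 := b 0 - a 0
    set u1 := b 1 - a 1
    set v0 := c 0 - a 0
    set v1 := c 1 - a 1
    have e0 : c 0 - b 0 = v0 - u0 := by simp only [u0, v0]; ring
    have e1 : c 1 - b 1 = v1 - u1 := by simp only [u1, v1]; ring
    rw [e0, e1]
    rcases abs_cases (u0 * v1 - u1 * v0) with ⟨h, -⟩ | ⟨h, -⟩
    · rw [h]
      nlinarith [sq_nonneg (u0 - v0 / 2 - r / 2 * v1), sq_nonneg (u1 - v1 / 2 + r / 2 * v0)]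
    · rw [h]
      nlinarith [sq_nonneg (u0 - v0 / 2 + r / 2 * v1), sq_nonneg (u1 - v1 / 2 - r / 2 * v0)]
  nlinarith

end CoverConn
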