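import Mathlib

/-!
Definitions for the problem `MP_5da84a_co`.
-/

namespace CoverConn

/-- the Euclidean plane -/
abbrev Plane := EuclideanSpace ℝ (Fin 2)

/-- the closed discs of radius `r` centred at the points of `P` cover the plane -/
def Covers (r : ℝ) (P : Set Plane) : Prop := ∀ z : Plane, ∃ p ∈ P, dist z p ≤ r

/-- distinct points of `P` are adjacent iff their distance is less than `c * r` -/
def distGraph (r c : ℝ) (P : Set Plane) : SimpleGraph P where
  Adj p q := p ≠ q ∧ dist (p : Plane) (q : Plane) < c * r
  symm := ⟨fun p q h => ⟨h.1.symm, by rw [dist_comm]; exact h.2⟩⟩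
  loopless := ⟨fun p h => h.1 rfl⟩

/-- connected, and still connected after deleting any set of fewer than `k` edges -/
def EdgeConn (k : ℕ) {V : Type} (G : SimpleGraph V) : Prop :=
  G.Connected ∧ ∀ S : Set (Sym2 V), S.encard < k → (G.deleteEdges S).Connected

/-- the set of `c > 0` such that `G_c(P)` is `k`-edge-connected for every covering `P` -/
def goodSet (r : ℝ) (k : ℕ) : Set ℝ :=
  {c | 0 < c ∧ ∀ P : Set Plane, Covers r P → EdgeConn k (distGraph r c P)}

/-- radii `ρ` such that the closed disc of radius `ρ` about the origin is covered by the closed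
unit disc about the origin together with `m` further closed unit discs -/
def radii (m : ℕ) : Set ℝ :=
  {ρ | ∃ x : Fin m → Plane, ∀ z : Plane, ‖z‖ ≤ ρ → ‖z‖ ≤ 1 ∨ ∃ i, dist z (x i) ≤ 1}

end CoverConn
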