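import Pool.Agent.Helper54.Cover.Defs

open Metric Set MeasureTheory

namespace CoverConn

lemma one_mem_radii (m : ℕ) : (1 : ℝ) ∈ radii m := ⟨fun _ => 0, fun _ hz => Or.inl hz⟩

lemma radii_anti {m : ℕ} {ρ ρ' : ℝ} (h : ρ' ≤ ρ) (hρ : ρ ∈ radii m) : ρ' ∈ radii m := by
  obtain ⟨x, hx⟩ := hρ
  exact ⟨x, fun z hz => hx z (hz.trans h)⟩

lemma radii_mono {m m' : ℕ} (h : m ≤ m') : radii m ⊆ radii m' := by
  rintro ρ ⟨x, hx⟩
  refine ⟨fun i => if hi : (i : ℕ) < m then x ⟨i, hi⟩ else 0, fun z hz => ?_⟩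
  rcases hx z hz with h1 | ⟨i, hi⟩
  · exact Or.inl h1
  · right
    refine ⟨⟨i, lt_of_lt_of_le i.2 h⟩, ?_⟩
    simpa using hi

lemma radii_sq_le {m : ℕ} {ρ : ℝ} (h0 : 0 ≤ ρ) (hρ : ρ ∈ radii m) : ρ ^ 2 ≤ m + 1 := by
  obtain ⟨x, hx⟩ := hρ
  have hsub : closedBall (0 : Plane) ρ ⊆ closedBall (0 : Plane) 1 ∪ ⋃ i, closedBall (x i) 1 := by
    intro z hz
    rw [mem_closedBall_zero_iff] at hz
    rcases hx z hz with h | ⟨i, hi⟩
    · left; rwa [mem_closedBall_zero_iff]
    · right; rw [mem_iUnion]; exact ⟨i, hi⟩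
  have hvol : ∀ (y : Plane) (s : ℝ), 0 ≤ s →
      volume (closedBall y s) = ENNReal.ofReal (s ^ 2) * volume (ball (0 : Plane) 1) := by
    intro y s hs
    rw [Measure.addHaar_closedBall _ _ hs]
    simp
  have h1 : volume (closedBall (0 : Plane) ρ) ≤
      volume (closedBall (0 : Plane) 1) + ∑ i, volume (closedBall (x i) 1) := by
    refine (measure_mono hsub).trans ((measure_union_le _ _).trans ?_)
    gcongr
    exact (measure_iUnion_fintype_le _ _)
  rw [hvol 0 ρ h0, hvol 0 1 zero_le_one, Finset.sum_congr rfl (fun i _ => hvol (x i) 1 zero_le_one)]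
    at h1
  simp only [one_pow, ENNReal.ofReal_one, one_mul, Finset.sum_const, Finset.card_univ,
    Fintype.card_fin, nsmul_eq_mul] at h1
  have hpos : volume (ball (0 : Plane) 1) ≠ 0 := (measure_ball_pos _ _ one_pos).ne'
  have hfin : volume (ball (0 : Plane) 1) ≠ ⊤ := measure_ball_lt_top.ne
  have h2 : ENNReal.ofReal (ρ ^ 2) * volume (ball (0 : Plane) 1) ≤
      ((m : ENNReal) + 1) * volume (ball (0 : Plane) 1) := by
    rw [add_mul, one_mul, add_comm]; exact h1
  have h3 : ENNReal.ofReal (ρ ^ 2) ≤ (m : ENNReal) + 1 :=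
    (ENNReal.mul_le_mul_iff_left hpos hfin).1 h2
  have h4 : (m : ENNReal) + 1 = ENNReal.ofReal ((m : ℝ) + 1) := by
    rw [ENNReal.ofReal_add (by positivity) zero_le_one]; simp
  rw [h4, ENNReal.ofReal_le_ofReal_iff (by positivity)] at h3
  exact h3

lemma radii_le {m : ℕ} {ρ : ℝ} (hρ : ρ ∈ radii m) : ρ ≤ Real.sqrt (m + 1) := by
  rcases le_or_gt 0 ρ with h | h
  · exact Real.le_sqrt_of_sq_le (radii_sq_le h hρ)
  · exact h.le.trans (Real.sqrt_nonneg _)

lemma radii_bddAbove (m : ℕ) : BddAbove (radii m) := ⟨_, fun _ h => radii_le h⟩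

lemma one_le_sSup_radii (m : ℕ) : 1 ≤ sSup (radii m) := le_csSup (radii_bddAbove m) (one_mem_radii m)

lemma sSup_radii_le (m : ℕ) : sSup (radii m) ≤ Real.sqrt (m + 1) :=
  csSup_le ⟨1, one_mem_radii m⟩ fun _ h => radii_le h

lemma sSup_mem_radii (m : ℕ) : sSup (radii m) ∈ radii m := by
  classical
  set M : ℝ := Real.sqrt (m + 1) with hM
  let K : Set (ℝ × (Fin m → Plane)) :=
    {p | ∀ w : Plane, ‖w‖ ≤ 1 → ‖p.1 • w‖ ≤ 1 ∨ ∃ i, dist (p.1 • w) (p.2 i) ≤ 1}
  have hK : IsClosed K := by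
    have : K = ⋂ w : Plane, ⋂ _ : ‖w‖ ≤ 1, ({p | ‖p.1 • w‖ ≤ 1} ∪
        ⋃ i, {p | dist (p.1 • w) (p.2 i) ≤ 1}) := by
      ext p
      simp only [K, mem_ofPred_eq, mem_iInter, mem_union, mem_iUnion]
    rw [this]
    refine isClosed_iInter fun w => isClosed_iInter fun _ => IsClosed.union ?_ ?_
    · exact isClosed_le (by fun_prop) continuous_const
    · exact isClosed_iUnion_of_finite fun i => isClosed_le (by fun_prop) continuous_const
  have hcomp : IsCompact (Icc (0 : ℝ) M ×ˢ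
      (Set.pi univ fun _ : Fin m => closedBall (0 : Plane) (M + 1))) :=
    isCompact_Icc.prod (isCompact_univ_pi fun _ => isCompact_closedBall _ _)
  have hcomp2 := hcomp.inter_right hK
  have himg := hcomp2.image continuous_fst
  have hiff : ∀ ρ : ℝ, 0 ≤ ρ → (ρ ∈ radii m ↔ ρ ∈ Prod.fst '' ((Icc (0 : ℝ) M ×ˢ
      (Set.pi univ fun _ : Fin m => closedBall (0 : Plane) (M + 1))) ∩ K)) := by
    intro ρ h0
    constructor
    · intro hρ
      have hle := radii_le hρ
      obtain ⟨x, hx⟩ := hρ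
      refine ⟨(ρ, fun i => if ‖x i‖ ≤ M + 1 then x i else 0), ⟨⟨⟨h0, hle⟩, ?_⟩, ?_⟩, rfl⟩
      · intro i _
        simp only [mem_closedBall_zero_iff]
        split_ifs with h
        · exact h
        · simp only [norm_zero]; have := Real.sqrt_nonneg ((m : ℝ) + 1); linarith
      · intro w hw
        simp only
        have hz : ‖ρ • w‖ ≤ ρ := by
          rw [norm_smul, Real.norm_eq_abs, abs_of_nonneg h0]
          nlinarith
        rcases hx _ hz with h | ⟨i, hi⟩
        · exact Or.inl h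
        · right
          refine ⟨i, ?_⟩
          have : ‖x i‖ ≤ M + 1 := by
            calc ‖x i‖ = ‖ρ • w - (ρ • w - x i)‖ := by congr 1; abel
              _ ≤ ‖ρ • w‖ + ‖ρ • w - x i‖ := norm_sub_le _ _
              _ ≤ M + 1 := by rw [← dist_eq_norm]; linarith
          rw [if_pos this]; exact hi
    · rintro ⟨⟨ρ', x⟩, ⟨-, hx⟩, rfl⟩
      refine ⟨x, fun z hz => ?_⟩
      simp only at hz
      rcases eq_or_lt_of_le h0 with h | h
      · simp only at h
        rw [← h] at hz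
        left; linarith
      · simp only at h
        have := hx (ρ'⁻¹ • z) (by
          rw [norm_smul, norm_inv, Real.norm_eq_abs, abs_of_pos h]
          rw [inv_mul_le_iff₀ h]; simpa using hz)
        simpa [smul_smul, mul_inv_cancel₀ h.ne'] using this
  have hne : (Prod.fst '' ((Icc (0 : ℝ) M ×ˢ
      (Set.pi univ fun _ : Fin m => closedBall (0 : Plane) (M + 1))) ∩ K)).Nonempty :=
    ⟨1, (hiff 1 zero_le_one).1 (one_mem_radii m)⟩
  obtain ⟨ρ, hρ, hmax⟩ := himg.exists_isGreatest hne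
  have hρ0 : 0 ≤ ρ := zero_le_one.trans (hmax ((hiff 1 zero_le_one).1 (one_mem_radii m)))
  have hρm : ρ ∈ radii m := (hiff ρ hρ0).2 hρ
  have : sSup (radii m) = ρ := by
    apply le_antisymm
    · refine csSup_le ⟨1, one_mem_radii m⟩ fun ρ' h' => ?_
      rcases le_or_gt 0 ρ' with h | h
      · exact hmax ((hiff ρ' h).1 h')
      · exact h.le.trans hρ0
    · exact le_csSup (radii_bddAbove m) hρm
  rw [this]; exact hρm

lemma mem_radii_iff {m : ℕ} {ρ : ℝ} : ρ ∈ radii m ↔ ρ ≤ sSup (radii m) :=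
  ⟨fun h => le_csSup (radii_bddAbove m) h, fun h => radii_anti h (sSup_mem_radii m)⟩

end CoverConn
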