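import Pool.Agent.Helper54.Cover.Kershner3
import Pool.Agent.Helper54.Cover.Rho

open Metric Set MeasureTheory

namespace CoverConn

lemma mem_radii_of_finset {m : ℕ} {ρ : ℝ} (F : Finset Plane) (hF : F.card ≤ m)
    (h : ∀ z : Plane, ‖z‖ ≤ ρ → ‖z‖ ≤ 1 ∨ ∃ x ∈ F, dist z x ≤ 1) : ρ ∈ radii m := by
  apply radii_mono hF
  obtain ⟨e⟩ : Nonempty (Fin F.card ≃ F) := ⟨F.equivFin.symm⟩
  refine ⟨fun i => (e i : Plane), fun z hz => ?_⟩
  rcases h z hz with h1 | ⟨x, hx, hzx⟩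
  · exact Or.inl h1
  · right
    refine ⟨e.symm ⟨x, hx⟩, ?_⟩
    simpa using hzx

/-- basis vectors of the hexagonal lattice -/
noncomputable def v1 : Plane := !₂[√3, 0]
noncomputable def v2 : Plane := !₂[√3 / 2, 3 / 2]

lemma sq3 : √3 ^ 2 = 3 := Real.sq_sqrt (by norm_num)

/-- the quadratic form of the lattice -/
lemma norm_sq_lat (y : Plane) : ‖mkL v1 v2 y‖ ^ 2 = 3 * (y 0 ^ 2 + y 0 * y 1 + y 1 ^ 2) := by
  rw [mkL_apply, EuclideanSpace.norm_sq_eq]
  simp only [Fin.sum_univ_two, Real.norm_eq_abs, sq_abs, v1, v2]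
  simp
  linear_combination (y 0 + y 1 / 2) ^ 2 * sq3

lemma norm_sq_lat_sub (y : Plane) (a b : ℝ) : ‖mkL v1 v2 (y - !₂[a, b])‖ ^ 2 =
    3 * ((y 0 - a) ^ 2 + (y 0 - a) * (y 1 - b) + (y 1 - b) ^ 2) := by
  rw [norm_sq_lat]
  simp

lemma tri_cover {s t : ℝ} (hs : 0 ≤ s) (ht : 0 ≤ t) (hst : s + t ≤ 1) :
    3 * (s ^ 2 + s * t + t ^ 2) ≤ 1 ∨ 3 * ((s - 1) ^ 2 + (s - 1) * t + t ^ 2) ≤ 1 ∨
      3 * (s ^ 2 + s * (t - 1) + (t - 1) ^ 2) ≤ 1 := by
  by_contra hcon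
  push Not at hcon
  obtain ⟨h1, h2, h3⟩ := hcon
  have k1 : 0 ≤ (1 - s - t) * (3 * (s ^ 2 + s * t + t ^ 2) - 1) := mul_nonneg (by linarith) (by linarith)
  have k2 : 0 ≤ s * (3 * ((s - 1) ^ 2 + (s - 1) * t + t ^ 2) - 1) := mul_nonneg hs (by linarith)
  have k3 : 0 ≤ t * (3 * (s ^ 2 + s * (t - 1) + (t - 1) ^ 2) - 1) := mul_nonneg ht (by linarith)
  have k4 : (1 - s - t) * (3 * (s ^ 2 + s * t + t ^ 2) - 1) +
      s * (3 * ((s - 1) ^ 2 + (s - 1) * t + t ^ 2) - 1) +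
      t * (3 * (s ^ 2 + s * (t - 1) + (t - 1) ^ 2) - 1) =
      - (3 * ((s - 1 / 3) ^ 2 + (s - 1 / 3) * (t - 1 / 3) + (t - 1 / 3) ^ 2)) := by ring
  have k5 : 0 ≤ (s - 1 / 3) ^ 2 + (s - 1 / 3) * (t - 1 / 3) + (t - 1 / 3) ^ 2 := by
    nlinarith [sq_nonneg ((s - 1 / 3) + (t - 1 / 3) / 2), sq_nonneg (t - 1 / 3)]
  have k6 : (s - 1 / 3) ^ 2 + (s - 1 / 3) * (t - 1 / 3) + (t - 1 / 3) ^ 2 = 0 := by linarith
  have k7 : t = 1 / 3 := by
    have : (t - 1 / 3) ^ 2 = 0 := by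
      nlinarith [sq_nonneg ((s - 1 / 3) + (t - 1 / 3) / 2), sq_nonneg (t - 1 / 3)]
    have := pow_eq_zero_iff (two_ne_zero) |>.1 this
    linarith
  have k8 : s = 1 / 3 := by
    rw [k7] at k6
    have : (s - 1 / 3) ^ 2 = 0 := by nlinarith
    have := pow_eq_zero_iff (two_ne_zero) |>.1 this
    linarith
  rw [k7, k8] at h1
  norm_num at h1

/-- lattice point -/
noncomputable def lat (i j : ℤ) : Plane := mkL v1 v2 !₂[(i : ℝ), (j : ℝ)]

lemma det_v : LinearMap.det (mkL v1 v2) = 3 * √3 / 2 := by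
  rw [mkL_det]; simp [v1, v2]; ring

lemma exists_coord (z : Plane) : ∃ y : Plane, mkL v1 v2 y = z := by
  have h3 : √3 ≠ 0 := (Real.sqrt_pos.2 (by norm_num)).ne'
  refine ⟨!₂[(z 0 - √3 / 2 * (2 / 3 * z 1)) / √3, 2 / 3 * z 1], ?_⟩
  rw [mkL_apply]
  ext i
  fin_cases i
  · simp [v1, v2]; field_simp; ring
  · simp [v1, v2]; ring

lemma lat_cover (z : Plane) : ∃ i j : ℤ, dist z (lat i j) ≤ 1 := by
  obtain ⟨y, rfl⟩ := exists_coord z
  have hd : ∀ i j : ℤ, 3 * ((y 0 - i) ^ 2 + (y 0 - i) * (y 1 - j) + (y 1 - j) ^ 2) ≤ 1 →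
      dist (mkL v1 v2 y) (lat i j) ≤ 1 := by
    intro i j h
    unfold lat
    rw [dist_eq_norm, ← map_sub]
    have h2 := norm_sq_lat_sub y i j
    have h4 : ‖mkL v1 v2 (y - !₂[(i : ℝ), (j : ℝ)])‖ ^ 2 ≤ 1 := by rw [h2]; exact h
    have := norm_nonneg (mkL v1 v2 (y - !₂[(i : ℝ), (j : ℝ)]))
    nlinarith
  set i := ⌊y 0⌋ with hi
  set j := ⌊y 1⌋ with hj
  have hs0 : 0 ≤ y 0 - i := by have := Int.floor_le (y 0); linarith
  have hs1 : y 0 - i < 1 := by have := Int.lt_floor_add_one (y 0); linarith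
  have ht0 : 0 ≤ y 1 - j := by have := Int.floor_le (y 1); linarith
  have ht1 : y 1 - j < 1 := by have := Int.lt_floor_add_one (y 1); linarith
  rcases le_total ((y 0 - i) + (y 1 - j)) 1 with h | h
  · rcases tri_cover hs0 ht0 h with h1 | h1 | h1
    · exact ⟨i, j, hd i j h1⟩
    · refine ⟨i + 1, j, hd (i + 1) j ?_⟩
      push_cast
      rw [← sub_sub]; exact h1
    · refine ⟨i, j + 1, hd i (j + 1) ?_⟩
      push_cast
      rw [← sub_sub]; exact h1
  · rcases tri_cover (s := 1 - (y 0 - i)) (t := 1 - (y 1 - j)) (by linarith) (by linarith)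
      (by linarith) with h1 | h1 | h1
    · refine ⟨i + 1, j + 1, hd (i + 1) (j + 1) ?_⟩
      push_cast
      linarith
    · refine ⟨i, j + 1, hd i (j + 1) ?_⟩
      push_cast
      linarith
    · refine ⟨i + 1, j, hd (i + 1) j ?_⟩
      push_cast
      linarith

/-- unit half-open square -/
def usq (p : ℤ × ℤ) : Set Plane := {y | (p.1 : ℝ) ≤ y 0 ∧ y 0 < p.1 + 1 ∧ (p.2 : ℝ) ≤ y 1 ∧ y 1 < p.2 + 1}

lemma usq_eq (p : ℤ × ℤ) : usq p = (@WithLp.ofLp 2 (Fin 2 → ℝ)) ⁻¹'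
    (Set.pi univ fun i => Ico ((![(p.1 : ℝ), (p.2 : ℝ)]) i) ((![(p.1 : ℝ) + 1, (p.2 : ℝ) + 1]) i)) := by
  ext y
  simp [usq, mem_pi, Fin.forall_fin_two]
  tauto

lemma measurableSet_usq (p : ℤ × ℤ) : MeasurableSet (usq p) := by
  rw [usq_eq]
  apply (PiLp.volume_preserving_ofLp (Fin 2)).measurable
  exact MeasurableSet.univ_pi fun _ => measurableSet_Ico

lemma volume_usq (p : ℤ × ℤ) : volume (usq p) = 1 := by
  rw [usq_eq, (PiLp.volume_preserving_ofLp (Fin 2)).measure_preimage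
    ((MeasurableSet.univ_pi fun _ => measurableSet_Ico).nullMeasurableSet), Real.volume_pi_Ico]
  simp [Fin.prod_univ_two]

lemma usq_disj {p q : ℤ × ℤ} (h : p ≠ q) : Disjoint (usq p) (usq q) := by
  rw [Set.disjoint_left]
  rintro y ⟨a1, a2, a3, a4⟩ ⟨b1, b2, b3, b4⟩
  apply h
  have e1 : p.1 = q.1 := by
    have c1 : p.1 < q.1 + 1 := by
      apply Int.cast_lt (R := ℝ) |>.1; push_cast; exact a1.trans_lt b2
    have c2 : q.1 < p.1 + 1 := by
      apply Int.cast_lt (R := ℝ) |>.1; push_cast; exact b1.trans_lt a2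
    omega
  have e2 : p.2 = q.2 := by
    have c1 : p.2 < q.2 + 1 := by
      apply Int.cast_lt (R := ℝ) |>.1; push_cast; exact a3.trans_lt b4
    have c2 : q.2 < p.2 + 1 := by
      apply Int.cast_lt (R := ℝ) |>.1; push_cast; exact b3.trans_lt a4
    omega
  exact Prod.ext e1 e2

lemma card_lat_le {R : ℝ} (hR : 0 ≤ R) (G : Finset (ℤ × ℤ)) (hG : ∀ p ∈ G, ‖lat p.1 p.2‖ ≤ R) :
    3 * √3 / 2 * G.card ≤ Real.pi * (R + 3) ^ 2 := by
  classical
  have h30 : 0 < √3 := Real.sqrt_pos.2 (by norm_num)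
  let U : Set Plane := ⋃ p ∈ G, usq p
  have hU : volume U = G.card := by
    simp only [U]
    rw [measure_biUnion_finset (fun p _ q _ h => usq_disj h) (fun p _ => measurableSet_usq p)]
    simp [volume_usq]
  have hsub : mkL v1 v2 '' U ⊆ closedBall 0 (R + 3) := by
    rintro _ ⟨y, hy, rfl⟩
    simp only [U, mem_iUnion] at hy
    obtain ⟨p, hp, a1, a2, a3, a4⟩ := hy
    rw [mem_closedBall_zero_iff]
    have h1 : mkL v1 v2 y = lat p.1 p.2 + mkL v1 v2 (y - !₂[(p.1 : ℝ), (p.2 : ℝ)]) := by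
      unfold lat; rw [← map_add]; congr 1; abel
    rw [h1]
    refine (norm_add_le _ _).trans (add_le_add (hG p hp) ?_)
    have h2 := norm_sq_lat_sub y p.1 p.2
    have h5 : ‖mkL v1 v2 (y - !₂[(p.1 : ℝ), (p.2 : ℝ)])‖ ^ 2 ≤ 9 := by
      rw [h2]
      set s := y 0 - p.1
      set t := y 1 - p.2
      have s0 : 0 ≤ s := by simp only [s]; linarith
      have s1 : s ≤ 1 := by simp only [s]; linarith
      have t0 : 0 ≤ t := by simp only [t]; linarith
      have t1 : t ≤ 1 := by simp only [t]; linarith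
      nlinarith
    have := norm_nonneg (mkL v1 v2 (y - !₂[(p.1 : ℝ), (p.2 : ℝ)]))
    nlinarith
  have hvol := measure_mono (μ := volume) hsub
  rw [Measure.addHaar_image_linearMap, det_v, hU, EuclideanSpace.volume_closedBall_fin_two,
    ← ENNReal.ofReal_pow (by linarith), ← ENNReal.ofReal_mul (by positivity),
    ← ENNReal.ofReal_natCast, ← ENNReal.ofReal_mul (abs_nonneg _),
    ENNReal.ofReal_le_ofReal_iff (by positivity), abs_of_pos (by positivity)] at hvol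
  linarith

lemma lat_zero : lat 0 0 = 0 := by
  unfold lat
  rw [mkL_apply]
  simp

lemma hex_mem_radii {m : ℕ} {ρ : ℝ} (hρ : 0 ≤ ρ)
    (h : Real.pi * (ρ + 4) ^ 2 ≤ 3 * √3 / 2 * (m + 1)) : ρ ∈ radii m := by
  classical
  have h30 : 0 < √3 := Real.sqrt_pos.2 (by norm_num)
  obtain ⟨M, hM⟩ := exists_nat_ge (ρ + 1)
  let G : Finset (ℤ × ℤ) := ((Finset.Icc (-(M : ℤ)) M) ×ˢ (Finset.Icc (-(M : ℤ)) M)).filter
    (fun p => ‖lat p.1 p.2‖ ≤ ρ + 1)
  have hmem : ∀ i j : ℤ, ‖lat i j‖ ≤ ρ + 1 → (i, j) ∈ G := by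
    intro i j hij
    simp only [G, Finset.mem_filter, Finset.mem_product, Finset.mem_Icc]
    have h2 := norm_sq_lat !₂[(i : ℝ), (j : ℝ)]
    simp at h2
    have h3 : ‖lat i j‖ ^ 2 ≤ (M : ℝ) ^ 2 := by
      apply pow_le_pow_left₀ (norm_nonneg _) (hij.trans hM)
    unfold lat at h3
    rw [h2] at h3
    have hi : (i : ℝ) ^ 2 ≤ (M : ℝ) ^ 2 := by nlinarith [sq_nonneg ((j : ℝ) + i / 2)]
    have hj : (j : ℝ) ^ 2 ≤ (M : ℝ) ^ 2 := by nlinarith [sq_nonneg ((i : ℝ) + j / 2)]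
    have hi' := abs_le_of_sq_le_sq' hi (by positivity)
    have hj' := abs_le_of_sq_le_sq' hj (by positivity)
    refine ⟨⟨⟨?_, ?_⟩, ⟨?_, ?_⟩⟩, hij⟩
    · exact_mod_cast hi'.1
    · exact_mod_cast hi'.2
    · exact_mod_cast hj'.1
    · exact_mod_cast hj'.2
  have hGn : ∀ p ∈ G, ‖lat p.1 p.2‖ ≤ ρ + 1 := by
    intro p hp
    simp only [G, Finset.mem_filter] at hp
    exact hp.2
  have hcard := card_lat_le (by linarith : (0 : ℝ) ≤ ρ + 1) G hGn
  have hcard2 : G.card ≤ m + 1 := by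
    have : 3 * √3 / 2 * (G.card : ℝ) ≤ 3 * √3 / 2 * ((m : ℝ) + 1) := by
      refine hcard.trans (le_trans (le_of_eq ?_) h)
      ring
    have h5 := le_of_mul_le_mul_left this (by positivity)
    exact_mod_cast h5
  have h0G : ((0 : ℤ), (0 : ℤ)) ∈ G := hmem 0 0 (by rw [lat_zero, norm_zero]; linarith)
  apply mem_radii_of_finset ((G.erase (0, 0)).image fun p => lat p.1 p.2)
  · refine Finset.card_image_le.trans ?_
    rw [Finset.card_erase_of_mem h0G]
    omega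
  · intro z hz
    obtain ⟨i, j, hij⟩ := lat_cover z
    have hn : ‖lat i j‖ ≤ ρ + 1 := by
      rw [dist_comm, dist_eq_norm] at hij
      calc ‖lat i j‖ = ‖z + (lat i j - z)‖ := by congr 1; abel
        _ ≤ ‖z‖ + ‖lat i j - z‖ := norm_add_le _ _
        _ ≤ ρ + 1 := by linarith
    have hG := hmem i j hn
    by_cases h0 : (i, j) = ((0 : ℤ), (0 : ℤ))
    · left
      simp only [Prod.mk.injEq] at h0
      rw [h0.1, h0.2, lat_zero, dist_zero_right] at hij
      exact hij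
    · right
      refine ⟨lat i j, ?_, hij⟩
      rw [Finset.mem_image]
      exact ⟨(i, j), Finset.mem_erase.2 ⟨h0, hG⟩, rfl⟩

/-- two-sided bounds for the optimal radius -/
theorem rho_bounds (m : ℕ) : √(3 * √3 * (m + 1) / (2 * Real.pi)) - 4 ≤ sSup (radii m) ∧
    sSup (radii m) ≤ √(3 * √3 * (m + 1) / (2 * Real.pi)) + 2 := by
  have h30 : 0 < √3 := Real.sqrt_pos.2 (by norm_num)
  have hpi := Real.pi_pos
  set K := √(3 * √3 * (m + 1) / (2 * Real.pi)) with hK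
  have hKsq : K ^ 2 = 3 * √3 * (m + 1) / (2 * Real.pi) := Real.sq_sqrt (by positivity)
  have hK0 : 0 ≤ K := Real.sqrt_nonneg _
  have hKpi : Real.pi * K ^ 2 = 3 * √3 / 2 * (m + 1) := by
    rw [hKsq]; field_simp
  constructor
  · rcases le_or_gt (K - 4) 0 with h | h
    · have := one_le_sSup_radii m; linarith
    · rw [← mem_radii_iff]
      apply hex_mem_radii h.le
      rw [← hKpi]
      apply le_of_eq; ring
  · rcases le_or_gt (sSup (radii m)) 2 with h | h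
    · linarith
    · obtain ⟨x, hx⟩ := sSup_mem_radii m
      classical
      have hk := kershner (X := insert 0 (Finset.univ.image x)) h.le (by
        intro z hz
        rcases hx z hz with h1 | ⟨i, hi⟩
        · exact ⟨0, by simp, by simpa using h1⟩
        · exact ⟨x i, by simp, hi⟩)
      have hc : ((insert 0 (Finset.univ.image x) : Finset Plane).card : ℝ) ≤ m + 1 := by
        have h1 := Finset.card_insert_le (0 : Plane) (Finset.univ.image x)
        have h2 : (Finset.univ.image x).card ≤ m := by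
          refine Finset.card_image_le.trans ?_
          simp
        have h3 : (insert 0 (Finset.univ.image x) : Finset Plane).card ≤ m + 1 := by omega
        exact_mod_cast h3
      have h4 : Real.pi * (sSup (radii m) - 2) ^ 2 ≤ Real.pi * K ^ 2 := by
        rw [hKpi]
        refine hk.trans ?_
        exact mul_le_mul_of_nonneg_left hc (by positivity)
      have h5 := le_of_mul_le_mul_left h4 hpi
      have h6 := (sq_le_sq₀ (by linarith) hK0).1 h5
      linarith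

end CoverConn
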