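import Pool.Agent.Helper54.Cover.Two

open Metric Set MeasureTheory

namespace CoverConn

lemma cos7 : 8 * Real.cos (Real.pi / 7) ^ 3 - 4 * Real.cos (Real.pi / 7) ^ 2
    - 4 * Real.cos (Real.pi / 7) + 1 = 0 := by
  set c := Real.cos (Real.pi / 7) with hc
  have h1 : Real.cos (3 * (Real.pi / 7)) = 4 * c ^ 3 - 3 * c := Real.cos_three_mul _
  have h2 : Real.cos (4 * (Real.pi / 7)) = 8 * c ^ 4 - 8 * c ^ 2 + 1 := by
    have : 4 * (Real.pi / 7) = 2 * (2 * (Real.pi / 7)) := by ring
    rw [this, Real.cos_two_mul, Real.cos_two_mul]; ring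
  have h3 : Real.cos (4 * (Real.pi / 7)) = -Real.cos (3 * (Real.pi / 7)) := by
    rw [← Real.cos_pi_sub]; congr 1; ring
  have hc0 : 0 < c := Real.cos_pos_of_mem_Ioo ⟨by have := Real.pi_pos; linarith,
    by have := Real.pi_pos; linarith⟩
  have h4 : (c + 1) * (8 * c ^ 3 - 4 * c ^ 2 - 4 * c + 1) = 0 := by
    have : (c + 1) * (8 * c ^ 3 - 4 * c ^ 2 - 4 * c + 1) =
      (8 * c ^ 4 - 8 * c ^ 2 + 1) + (4 * c ^ 3 - 3 * c) := by ring
    rw [this, ← h1, ← h2, h3]; ring
  rcases mul_eq_zero.1 h4 with h | h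
  · linarith
  · exact h

lemma cos_pi_div_ge {n : ℕ} (hn : 4 < n) : √2 / 2 < Real.cos (Real.pi / n) := by
  have hn' : (4 : ℝ) < n := by exact_mod_cast hn
  have hpi := Real.pi_pos
  rw [← Real.cos_pi_div_four]
  apply Real.cos_lt_cos_of_nonneg_of_le_pi (by positivity) (by linarith)
  gcongr

lemma rho_seven : sSup (radii 7) = 4 * Real.cos (Real.pi / (7 : ℕ)) ^ 2 - 1 := by
  apply le_antisymm _ (ring_ge (m := 7) (by norm_num))
  have hge := cos_pi_div_ge (n := 7) (by norm_num)
  push_cast at hge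
  have h7 := cos7
  set c := Real.cos (Real.pi / 7) with hc
  have hs2 : 1.4 < √2 := by
    apply Real.lt_sqrt_of_sq_lt; norm_num
  have hc1 : 0.7 < c := by linarith
  have hcle : c ≤ 1 := Real.cos_le_one _
  have hcl : 0.9 < c := by
    by_contra hcon
    push Not at hcon
    nlinarith [mul_nonneg (sub_nonneg.2 hc1.le) (sub_nonneg.2 hcon), sq_nonneg c]
  have hcu : c < 0.901 := by
    by_contra hcon
    push Not at hcon
    nlinarith [mul_nonneg (sub_nonneg.2 hcon) (sub_nonneg.2 hc1.le), sq_nonneg c]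
  apply upper_of (m := 7) (by norm_num) (ρ₁ := 2.26)
  · push_cast; rw [← hc]; nlinarith
  · norm_num
  · push_cast; rw [← hc]; nlinarith
  · intro ρ hρ1 hρ2
    push_cast at hρ1
    rw [← hc] at hρ1
    apply cond_of (a := 2.24) (b := 2.26) (s := 0.43) <;> first | (norm_num; done) | nlinarith

lemma rho_eight : sSup (radii 8) = 4 * Real.cos (Real.pi / (8 : ℕ)) ^ 2 - 1 := by
  apply le_antisymm _ (ring_ge (m := 8) (by norm_num))
  have h8 : Real.cos (Real.pi / 8) ^ 2 = (2 + √2) / 4 := by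
    rw [Real.cos_pi_div_eight, div_pow, Real.sq_sqrt (by positivity)]; norm_num
  have hs2 : 1.414 < √2 := by
    apply Real.lt_sqrt_of_sq_lt; norm_num
  have hs3 : √2 < 1.4143 := by
    rw [Real.sqrt_lt' (by norm_num)]; norm_num
  apply upper_of (m := 8) (by norm_num) (ρ₁ := 2.42)
  · push_cast; rw [h8]; linarith
  · norm_num
  · push_cast; rw [h8]; linarith
  · intro ρ hρ1 hρ2
    push_cast at hρ1
    rw [h8] at hρ1
    apply cond_of (a := 2.414) (b := 2.42) (s := 0.38) <;> first | (norm_num; done) | linarith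

lemma rho_nine : sSup (radii 9) = 4 * Real.cos (Real.pi / (9 : ℕ)) ^ 2 - 1 := by
  apply le_antisymm _ (ring_ge (m := 9) (by norm_num))
  have hge := cos_pi_div_ge (n := 9) (by norm_num)
  push_cast at hge
  have h9 : 4 * Real.cos (Real.pi / 9) ^ 3 - 3 * Real.cos (Real.pi / 9) = 1 / 2 := by
    rw [← Real.cos_three_mul, ← Real.cos_pi_div_three]; congr 1; ring
  set c := Real.cos (Real.pi / 9) with hc
  have hs2 : 1.4 < √2 := by
    apply Real.lt_sqrt_of_sq_lt; norm_num
  have hc1 : 0.7 < c := by linarith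
  have hcle : c ≤ 1 := Real.cos_le_one _
  have hcl : 0.9395 < c := by
    by_contra hcon
    push Not at hcon
    nlinarith [mul_nonneg (sub_nonneg.2 hc1.le) (sub_nonneg.2 hcon), sq_nonneg c]
  have hcu : c < 0.9398 := by
    by_contra hcon
    push Not at hcon
    nlinarith [mul_nonneg (sub_nonneg.2 hcon) (sub_nonneg.2 hc1.le), sq_nonneg c]
  apply upper_of (m := 9) (by norm_num) (ρ₁ := 2.54)
  · push_cast; rw [← hc]; nlinarith
  · norm_num
  · push_cast; rw [← hc]; nlinarith
  · intro ρ hρ1 hρ2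
    push_cast at hρ1
    rw [← hc] at hρ1
    apply cond_of (a := 2.53) (b := 2.54) (s := 0.339) <;> first | (norm_num; done) | nlinarith

end CoverConn
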