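import Pool.Agent.Helper54.Cover.Main
import Pool.Agent.Helper54.Cover.Values
import Pool.Agent.Helper54.Cover.Hex

open Metric Set MeasureTheory

namespace CoverConn

lemma sInf_goodSet {r : ℝ} (hr : 0 < r) {k : ℕ} (hk : 1 ≤ k) :
    sInf (goodSet r k) = 1 + sSup (radii (k - 1)) := by
  rw [goodSet_eq hr hk, csInf_Ioi]

lemma sInf_notMem {r : ℝ} (hr : 0 < r) {k : ℕ} (hk : 1 ≤ k) :
    sInf (goodSet r k) ∉ goodSet r k := by
  rw [sInf_goodSet hr hk, goodSet_eq hr hk]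
  simp

lemma value_small {r : ℝ} (hr : 0 < r) {k : ℕ} (hk : 1 ≤ k) (hk3 : k ≤ 3) :
    sInf (goodSet r k) = 2 := by
  rw [sInf_goodSet hr hk, rho_le_two (by omega)]; norm_num

lemma value_mid {r : ℝ} (hr : 0 < r) {k : ℕ} (hk : 4 ≤ k) (hk7 : k ≤ 7) :
    sInf (goodSet r k) = 1 + 1 / Real.sin (Real.pi / (k - 1)) := by
  rw [sInf_goodSet hr (by omega), rho_three_six (by omega) (by omega)]
  have : ((k - 1 : ℕ) : ℝ) = (k : ℝ) - 1 := by
    rw [Nat.cast_sub (by omega)]; simp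
  rw [this]

lemma value_high {r : ℝ} (hr : 0 < r) {k : ℕ} (hk : 8 ≤ k) (hk10 : k ≤ 10) :
    sInf (goodSet r k) = 4 * Real.cos (Real.pi / (k - 1)) ^ 2 := by
  rw [sInf_goodSet hr (by omega)]
  have hc : ((k - 1 : ℕ) : ℝ) = (k : ℝ) - 1 := by
    rw [Nat.cast_sub (by omega)]; simp
  have key : sSup (radii (k - 1)) = 4 * Real.cos (Real.pi / ((k - 1 : ℕ) : ℝ)) ^ 2 - 1 := by
    interval_cases k
    · exact rho_seven
    · exact rho_eight
    · exact rho_nine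
  rw [key, hc]; ring

lemma value_bounds {r : ℝ} (hr : 0 < r) {k : ℕ} (hk : 1 ≤ k) :
    |sInf (goodSet r k) - √(3 * √3 * k / (2 * Real.pi))| ≤ 3 := by
  have h := rho_bounds (k - 1)
  rw [sInf_goodSet hr hk]
  have hc : ((k - 1 : ℕ) : ℝ) + 1 = (k : ℝ) := by
    rw [Nat.cast_sub hk]; simp
  rw [hc] at h
  rw [abs_le]
  constructor <;> linarith [h.1, h.2]

end CoverConn
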