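import Pool.Agent.Helper54.Cover.Defs

open Metric Set MeasureTheory

namespace CoverConn

/-- generic small heights -/
lemma exists_generic (X : Finset Plane) {δ : ℝ} (hδ : 0 < δ) :
    ∃ ε : Plane → ℝ, (∀ x ∈ X, 0 < ε x ∧ ε x < δ) ∧ ∀ Q ⊆ X, Q.card = 4 →
      ¬ ∃ (p : Plane) (q : ℝ), ∀ x ∈ Q, ‖x‖ ^ 2 + ε x = 2 * inner ℝ p x + q := by
  classical
  -- enumeration
  obtain ⟨n, hn⟩ : ∃ n : Plane → ℕ, Set.InjOn n X := by
    refine ⟨fun x => if h : x ∈ X then (X.equivFin ⟨x, h⟩ : ℕ) else 0, ?_⟩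
    intro x hx y hy hxy
    simp only [Finset.mem_coe] at hx hy
    simp only [hx, hy, dite_true] at hxy
    have := X.equivFin.injective (Fin.ext hxy)
    simpa using this
  -- dependencies
  have hdep : ∀ Q : Finset Plane, Q.card = 4 → ∃ f : Plane → ℝ, ∑ x ∈ Q, f x • x = 0 ∧
      ∑ x ∈ Q, f x = 0 ∧ ∃ x ∈ Q, f x ≠ 0 := by
    intro Q hQ
    apply Module.exists_nontrivial_relation_sum_zero_of_finrank_succ_lt_card
    rw [hQ]; simp
  choose! f hf1 hf2 hf3 using hdep
  let P : Finset Plane → Polynomial ℝ := fun Q =>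
    ∑ x ∈ Q, Polynomial.C (f Q x) * Polynomial.X ^ (n x + 1) +
      Polynomial.C (∑ x ∈ Q, f Q x * ‖x‖ ^ 2)
  have hP : ∀ Q ⊆ X, Q.card = 4 → P Q ≠ 0 := by
    intro Q hQX hQ h0
    obtain ⟨x₀, hx₀, hne⟩ := hf3 Q hQ
    have h1 : (P Q).coeff (n x₀ + 1) = f Q x₀ := by
      simp only [P, Polynomial.coeff_add, Polynomial.finsetSum_coeff, Polynomial.coeff_C_mul,
        Polynomial.coeff_X_pow, Polynomial.coeff_C]
      rw [Finset.sum_eq_single x₀]
      · simp
      · intro y hy hyx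
        have : n x₀ ≠ n y := fun h => hyx (hn (hQX hy) (hQX hx₀) h.symm)
        simp [this]
      · intro h; exact absurd hx₀ h
    rw [h0] at h1
    simp at h1
    exact hne h1.symm
  let bad : Finset ℝ := (X.powersetCard 4).biUnion fun Q => (P Q).roots.toFinset
  obtain ⟨t, ht, htb⟩ : ∃ t ∈ Ioo (0 : ℝ) (min δ 1), t ∉ (bad : Set ℝ) := by
    have hinf : (Ioo (0 : ℝ) (min δ 1)).Infinite := Ioo_infinite (lt_min hδ one_pos)
    obtain ⟨t, ht⟩ := (hinf.sdiff bad.finite_toSet).nonempty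
    exact ⟨t, ht.1, ht.2⟩
  have ht1 : t < 1 := ht.2.trans_le (min_le_right _ _)
  have htδ : t < δ := ht.2.trans_le (min_le_left _ _)
  refine ⟨fun x => t ^ (n x + 1), ?_, ?_⟩
  · intro x _
    refine ⟨pow_pos ht.1 _, ?_⟩
    calc t ^ (n x + 1) ≤ t ^ 1 := pow_le_pow_of_le_one ht.1.le ht1.le (by omega)
      _ < δ := by simpa using htδ
  · rintro Q hQX hQ ⟨p, q, hpq⟩
    apply htb
    simp only [bad, Finset.coe_biUnion, mem_iUnion, Finset.mem_coe, Multiset.mem_toFinset,
      Finset.mem_powersetCard]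
    refine ⟨Q, ⟨hQX, hQ⟩, ?_⟩
    rw [Polynomial.mem_roots (hP Q hQX hQ)]
    simp only [P, Polynomial.IsRoot, Polynomial.eval_add, Polynomial.eval_finsetSum,
      Polynomial.eval_mul, Polynomial.eval_C, Polynomial.eval_pow, Polynomial.eval_X]
    rw [← Finset.sum_add_distrib]
    have h1 : ∀ x ∈ Q, f Q x * t ^ (n x + 1) + f Q x * ‖x‖ ^ 2 =
        2 * (f Q x * inner ℝ p x) + f Q x * q := by
      intro x hx
      have := hpq x hx
      simp only at this
      linear_combination (f Q x) * this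
    rw [Finset.sum_congr rfl h1, Finset.sum_add_distrib, ← Finset.sum_mul, ← Finset.mul_sum,
      hf2 Q hQ]
    have h2 : ∑ x ∈ Q, f Q x * inner ℝ p x = inner ℝ p (∑ x ∈ Q, f Q x • x) := by
      rw [inner_sum]
      exact Finset.sum_congr rfl fun x _ => (real_inner_smul_right _ _ _).symm
    rw [h2, hf1 Q hQ, inner_zero_right]
    ring

/-- existence of a supporting affine function -/
lemma exists_tight (X : Finset Plane) (H : Plane → ℝ) (z : Plane)
    (hz : ∀ p : Plane, ∃ x ∈ X, ‖p‖ ≤ inner ℝ p (x - z)) :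
    ∃ (p : Plane) (q : ℝ), (∀ x ∈ X, 2 * inner ℝ p x + q ≤ H x) ∧
      z ∈ convexHull ℝ ((X.filter fun x => 2 * inner ℝ p x + q = H x : Finset Plane) : Set Plane) := by
  classical
  have hX : X.Nonempty := by
    obtain ⟨x, hx, -⟩ := hz 0; exact ⟨x, hx⟩
  let φ : Plane → ℝ := fun p => X.inf' hX (fun x => H x + 2 * inner ℝ p (z - x))
  have hcont : Continuous φ := by
    apply Continuous.finset_inf'_apply hX
    intro x _
    fun_prop
  set Hm := X.sup' hX H with hHm
  have hbound : ∀ p, φ p ≤ Hm - 2 * ‖p‖ := by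
    intro p
    obtain ⟨x, hx, hpx⟩ := hz p
    refine (Finset.inf'_le _ hx).trans ?_
    have h1 : H x ≤ Hm := Finset.le_sup' H hx
    have h2 : inner ℝ p (z - x) = -inner ℝ p (x - z) := by
      rw [← inner_neg_right]; congr 1; abel
    rw [h2]; linarith
  set M := max 0 ((Hm - φ 0) / 2) with hM
  obtain ⟨p, hp, hpmax⟩ := (isCompact_closedBall (0 : Plane) M).exists_isMaxOn
    ⟨0, by rw [mem_closedBall_zero_iff, norm_zero]; exact le_max_left _ _⟩ hcont.continuousOn
  have hmax : ∀ p', φ p' ≤ φ p := by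
    intro p'
    rcases le_or_gt ‖p'‖ M with h | h
    · exact hpmax (mem_closedBall_zero_iff.2 h)
    · have h0 : φ 0 ≤ φ p := hpmax (by
        rw [mem_closedBall_zero_iff, norm_zero]; exact le_max_left _ _)
      have h1 := hbound p'
      have h2 : (Hm - φ 0) / 2 ≤ M := le_max_right _ _
      linarith
  refine ⟨p, φ p - 2 * inner ℝ p z, ?_, ?_⟩
  · intro x hx
    have h1 : φ p ≤ H x + 2 * inner ℝ p (z - x) := Finset.inf'_le _ hx
    rw [inner_sub_right] at h1
    linarith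
  · by_contra hcon
    set A := X.filter fun x => 2 * inner ℝ p x + (φ p - 2 * inner ℝ p z) = H x with hA
    obtain ⟨f, u, hfz, hfA⟩ := geometric_hahn_banach_point_closed (convex_convexHull ℝ (A : Set Plane))
      (A.finite_toSet.isClosed_convexHull ℝ) hcon
    let v : Plane := (InnerProductSpace.toDual ℝ Plane).symm f
    have hv : ∀ y, inner ℝ v y = f y := fun y => by
      simp [v]
    have hev : ∀ᶠ t in nhdsWithin (0 : ℝ) (Ioi 0), ∀ x ∈ X,
        φ p < H x + 2 * inner ℝ (p - t • v) (z - x) := by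
      rw [Filter.eventually_all_finset]
      intro x hx
      by_cases hxA : x ∈ A
      · filter_upwards [self_mem_nhdsWithin] with t ht
        have ht' : (0 : ℝ) < t := ht
        have h1 := hfA x (subset_convexHull ℝ _ hxA)
        have h2 := (Finset.mem_filter.1 hxA).2
        rw [inner_sub_left, real_inner_smul_left, hv, inner_sub_right, map_sub]
        nlinarith
      · have h1 : φ p ≤ H x + 2 * inner ℝ p (z - x) := Finset.inf'_le _ hx
        have h2 : φ p ≠ H x + 2 * inner ℝ p (z - x) := by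
          intro h
          apply hxA
          rw [hA, Finset.mem_filter]
          refine ⟨hx, ?_⟩
          rw [inner_sub_right] at h
          linarith
        have h3 : φ p < H x + 2 * inner ℝ (p - (0 : ℝ) • v) (z - x) := by
          rw [zero_smul, sub_zero]; exact lt_of_le_of_ne h1 h2
        have hc : ContinuousAt (fun t : ℝ => H x + 2 * inner ℝ (p - t • v) (z - x)) 0 := by
          fun_prop
        exact (hc.eventually (lt_mem_nhds h3)).filter_mono nhdsWithin_le_nhds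
    obtain ⟨t, ht⟩ := hev.exists
    have h4 : φ p < φ (p - t • v) := by
      rw [Finset.lt_inf'_iff]
      exact ht
    exact absurd (hmax (p - t • v)) (not_le.2 h4)

lemma norm_sub_sq_eq (p x : Plane) : ‖x - p‖ ^ 2 = ‖x‖ ^ 2 - 2 * inner ℝ p x + ‖p‖ ^ 2 := by
  rw [@norm_sub_sq_real, real_inner_comm]

/-- The circumscribed circle has radius at most `√(1+δ)`. -/
lemma radius_bound {X : Finset Plane} {R δ : ℝ} (hδ : 0 < δ) (hδ1 : δ ≤ 1)
    (hcov : ∀ z : Plane, ‖z‖ ≤ R → ∃ x ∈ X, dist z x ≤ 1)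
    {ε : Plane → ℝ} (hε : ∀ x ∈ X, 0 < ε x ∧ ε x < δ) {p : Plane} {q : ℝ}
    (hfeas : ∀ x ∈ X, 2 * inner ℝ p x + q ≤ ‖x‖ ^ 2 + ε x) {A : Finset Plane} (hAX : A ⊆ X)
    (hA : ∀ x ∈ A, 2 * inner ℝ p x + q = ‖x‖ ^ 2 + ε x) {z : Plane} (hzR : ‖z‖ ≤ R - 2)
    (hz : z ∈ convexHull ℝ (A : Set Plane)) : ∀ a ∈ A, ‖a - p‖ ^ 2 ≤ 1 + δ := by
  set r2 := ‖p‖ ^ 2 + q with hr2
  have h1 : ∀ x ∈ X, r2 - ε x ≤ ‖x - p‖ ^ 2 := by
    intro x hx
    rw [norm_sub_sq_eq]
    linarith [hfeas x hx]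
  have h2 : ∀ a ∈ A, ‖a - p‖ ^ 2 = r2 - ε a := by
    intro a ha
    rw [norm_sub_sq_eq]
    linarith [hA a ha]
  suffices hr : r2 ≤ 1 + δ by
    intro a ha
    rw [h2 a ha]
    linarith [(hε a (hAX ha)).1]
  by_contra hcon
  push Not at hcon
  have hr0 : 0 < r2 := by linarith
  set s := √r2 with hs
  have hs2 : s ^ 2 = r2 := Real.sq_sqrt hr0.le
  have hs0 : 0 < s := Real.sqrt_pos.2 hr0
  have hzp : ‖z - p‖ ≤ s := by
    have hsub : convexHull ℝ (A : Set Plane) ⊆ closedBall p s := by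
      apply convexHull_min _ (convex_closedBall _ _)
      intro a ha
      rw [mem_closedBall, dist_eq_norm]
      have := h2 a ha
      have h3 : ‖a - p‖ ^ 2 ≤ s ^ 2 := by
        rw [this, hs2]; linarith [(hε a (hAX ha)).1]
      exact (sq_le_sq₀ (norm_nonneg _) hs0.le).1 h3
    have := hsub hz
    rwa [mem_closedBall, dist_eq_norm] at this
  rcases le_or_gt ‖z - p‖ 2 with h | h
  · have hp : ‖p‖ ≤ R := by
      calc ‖p‖ = ‖z - (z - p)‖ := by congr 1; abel
        _ ≤ ‖z‖ + ‖z - p‖ := norm_sub_le _ _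
        _ ≤ R := by linarith
    obtain ⟨x, hx, hpx⟩ := hcov p hp
    rw [dist_comm, dist_eq_norm] at hpx
    have h4 := h1 x hx
    have h5 := (hε x hx).2
    have := norm_nonneg (x - p)
    nlinarith
  · have hpos : 0 < ‖z - p‖ := by linarith
    set w := z + (2 / ‖z - p‖) • (p - z) with hw
    have hwz : ‖w - z‖ = 2 := by
      rw [hw, add_sub_cancel_left, norm_smul, Real.norm_eq_abs, abs_of_pos (by positivity),
        norm_sub_rev p z, div_mul_cancel₀ _ hpos.ne']
    have hwR : ‖w‖ ≤ R := by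
      calc ‖w‖ = ‖z + (w - z)‖ := by congr 1; abel
        _ ≤ ‖z‖ + ‖w - z‖ := norm_add_le _ _
        _ ≤ R := by linarith
    have hwp : ‖w - p‖ = ‖z - p‖ - 2 := by
      have h6 : w - p = (1 - 2 / ‖z - p‖) • (z - p) := by
        rw [hw, sub_smul, one_smul]
        have : (2 / ‖z - p‖) • (p - z) = -((2 / ‖z - p‖) • (z - p)) := by
          rw [← smul_neg]; congr 1; abel
        rw [this]; abel
      have h7 : 0 < 1 - 2 / ‖z - p‖ := by
        rw [sub_pos, div_lt_one hpos]; exact h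
      rw [h6, norm_smul, Real.norm_eq_abs, abs_of_pos h7, sub_mul, one_mul,
        div_mul_cancel₀ _ hpos.ne']
    obtain ⟨x, hx, hwx⟩ := hcov w hwR
    have h8 : ‖x - p‖ ≤ s - 1 := by
      calc ‖x - p‖ = ‖(x - w) + (w - p)‖ := by congr 1; abel
        _ ≤ ‖x - w‖ + ‖w - p‖ := norm_add_le _ _
        _ ≤ s - 1 := by
          rw [dist_comm, dist_eq_norm] at hwx
          linarith
    have h9 := h1 x hx
    have h10 := (hε x hx).2
    have h11 : ‖x - p‖ ^ 2 ≤ (s - 1) ^ 2 := pow_le_pow_left₀ (norm_nonneg _) h8 2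
    nlinarith

end CoverConn
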