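import Pool.Agent.Helper54.Cover.Kershner1

open Metric Set MeasureTheory

namespace CoverConn

/-- a linear functional, injective on a finite set for generic `t` -/
noncomputable def ell (t : ℝ) (y : Plane) : ℝ := y 0 + t * y 1

lemma exists_ell (X : Finset Plane) : ∃ t : ℝ, Set.InjOn (ell t) X := by
  classical
  let bad : Finset ℝ := (X ×ˢ X).image fun p => -(p.1 0 - p.2 0) / (p.1 1 - p.2 1)
  obtain ⟨t, ht⟩ := bad.exists_notMem
  refine ⟨t, ?_⟩
  intro x hx y hy hxy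
  simp only [ell] at hxy
  by_cases h : x 1 - y 1 = 0
  · have h1 : x 1 = y 1 := by linarith
    have h0 : x 0 = y 0 := by rw [h1] at hxy; linarith
    ext i; fin_cases i
    · exact h0
    · exact h1
  · exfalso
    apply ht
    simp only [bad, Finset.mem_image, Finset.mem_product, Prod.exists]
    refine ⟨x, y, ⟨hx, hy⟩, ?_⟩
    rw [div_eq_iff h]
    linarith

/-- the triple `(a, b, c)` is a cell: it is the exact contact set of a supporting affine function -/
def IsCell (X : Finset Plane) (H : Plane → ℝ) (t δ : ℝ) (T : Plane × Plane × Plane) : Prop :=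
  ell t T.1 < ell t T.2.1 ∧ ell t T.2.1 < ell t T.2.2 ∧ T.2.1 ∉ segment ℝ T.1 T.2.2 ∧
    ∃ (p : Plane) (q : ℝ), (∀ x ∈ X, 2 * inner ℝ p x + q ≤ H x) ∧
      (∀ x ∈ X, 2 * inner ℝ p x + q = H x ↔ (x = T.1 ∨ x = T.2.1 ∨ x = T.2.2)) ∧
      ‖T.1 - p‖ ^ 2 ≤ 1 + δ ∧ ‖T.2.1 - p‖ ^ 2 ≤ 1 + δ ∧ ‖T.2.2 - p‖ ^ 2 ≤ 1 + δ

lemma aff_comb (p : Plane) (q : ℝ) {a b c : Plane} {α β γ : ℝ} (h : α + β + γ = 1) :
    2 * inner ℝ p (α • a + β • b + γ • c) + q =
      α * (2 * inner ℝ p a + q) + β * (2 * inner ℝ p b + q) + γ * (2 * inner ℝ p c + q) := by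
  rw [inner_add_right, inner_add_right, real_inner_smul_right, real_inner_smul_right,
    real_inner_smul_right]
  linear_combination (-q) * h

lemma uniq_aux {H : Plane → ℝ} {a b c a' b' c' : Plane} {p p' : Plane} {q q' : ℝ}
    (ha : 2 * inner ℝ p a + q = H a) (hb : 2 * inner ℝ p b + q = H b)
    (hc : 2 * inner ℝ p c + q = H c)
    (ha' : 2 * inner ℝ p' a' + q' = H a') (hb' : 2 * inner ℝ p' b' + q' = H b')
    (hc' : 2 * inner ℝ p' c' + q' = H c')
    (la : 2 * inner ℝ p' a + q' ≤ H a) (lb : 2 * inner ℝ p' b + q' ≤ H b)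
    (lc : 2 * inner ℝ p' c + q' ≤ H c)
    (la' : 2 * inner ℝ p a' + q ≤ H a') (lb' : 2 * inner ℝ p b' + q ≤ H b')
    (lc' : 2 * inner ℝ p c' + q ≤ H c')
    {α β γ α' β' γ' : ℝ} (h0 : 0 < α ∧ 0 < β ∧ 0 < γ) (h0' : 0 < α' ∧ 0 < β' ∧ 0 < γ')
    (h1 : α + β + γ = 1) (h1' : α' + β' + γ' = 1)
    (hz : α • a + β • b + γ • c = α' • a' + β' • b' + γ' • c') :
    2 * inner ℝ p a' + q = H a' ∧ 2 * inner ℝ p b' + q = H b' ∧ 2 * inner ℝ p c' + q = H c' := by
  obtain ⟨hα, hβ, hγ⟩ := h0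
  obtain ⟨hα', hβ', hγ'⟩ := h0'
  have e1 := aff_comb p q (a := a) (b := b) (c := c) h1
  have e2 := aff_comb p' q' (a := a) (b := b) (c := c) h1
  have e3 := aff_comb p q (a := a') (b := b') (c := c') h1'
  have e4 := aff_comb p' q' (a := a') (b := b') (c := c') h1'
  rw [← hz] at e3 e4
  rw [ha, hb, hc] at e1
  rw [ha', hb', hc'] at e4
  -- h'(z) ≤ h(z)
  have i1 : α * (2 * inner ℝ p' a + q') ≤ α * H a := mul_le_mul_of_nonneg_left la hα.le
  have i2 : β * (2 * inner ℝ p' b + q') ≤ β * H b := mul_le_mul_of_nonneg_left lb hβ.le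
  have i3 : γ * (2 * inner ℝ p' c + q') ≤ γ * H c := mul_le_mul_of_nonneg_left lc hγ.le
  have j1 : α' * (2 * inner ℝ p a' + q) ≤ α' * H a' := mul_le_mul_of_nonneg_left la' hα'.le
  have j2 : β' * (2 * inner ℝ p b' + q) ≤ β' * H b' := mul_le_mul_of_nonneg_left lb' hβ'.le
  have j3 : γ' * (2 * inner ℝ p c' + q) ≤ γ' * H c' := mul_le_mul_of_nonneg_left lc' hγ'.le
  refine ⟨?_, ?_, ?_⟩
  · have : α' * (2 * inner ℝ p a' + q) = α' * H a' := by linarith
    exact mul_left_cancel₀ hα'.ne' this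
  · have : β' * (2 * inner ℝ p b' + q) = β' * H b' := by linarith
    exact mul_left_cancel₀ hβ'.ne' this
  · have : γ' * (2 * inner ℝ p c' + q) = γ' * H c' := by linarith
    exact mul_left_cancel₀ hγ'.ne' this

/-- weight of the point of `[a, c]` on the line through `b` in the direction `ell = const` -/
noncomputable def th (t : ℝ) (T : Plane × Plane × Plane) : ℝ :=
  (ell t T.2.1 - ell t T.1) / (ell t T.2.2 - ell t T.1)

/-- signed position of this point relative to `b` -/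
noncomputable def sg (t : ℝ) (T : Plane × Plane × Plane) : ℝ :=
  (1 - th t T) * T.1 1 + th t T * T.2.2 1 - T.2.1 1

/-- direction vector of the lines `ell = const` -/
noncomputable def dir (t : ℝ) : Plane := !₂[-t, 1]

lemma th_mem {t : ℝ} {T : Plane × Plane × Plane} (h1 : ell t T.1 < ell t T.2.1)
    (h2 : ell t T.2.1 < ell t T.2.2) : 0 < th t T ∧ th t T < 1 := by
  unfold th
  constructor
  · apply div_pos <;> linarith
  · rw [div_lt_one] <;> linarith

lemma sg_eq {t : ℝ} {T : Plane × Plane × Plane} (h1 : ell t T.1 < ell t T.2.1)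
    (h2 : ell t T.2.1 < ell t T.2.2) :
    (1 - th t T) • T.1 + th t T • T.2.2 = T.2.1 + sg t T • dir t := by
  have h3 : th t T * (ell t T.2.2 - ell t T.1) = ell t T.2.1 - ell t T.1 :=
    div_mul_cancel₀ _ (by linarith)
  ext i
  fin_cases i
  · simp [dir, sg]
    simp only [ell] at h3
    linear_combination h3
  · simp [dir, sg]

lemma sg_ne {t : ℝ} {T : Plane × Plane × Plane} (h1 : ell t T.1 < ell t T.2.1)
    (h2 : ell t T.2.1 < ell t T.2.2) (h3 : T.2.1 ∉ segment ℝ T.1 T.2.2) : sg t T ≠ 0 := by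
  intro h
  have h4 := sg_eq h1 h2
  rw [h, zero_smul, add_zero] at h4
  obtain ⟨h5, h6⟩ := th_mem h1 h2
  exact h3 ⟨1 - th t T, th t T, by linarith, h5.le, by ring, h4⟩

lemma cell_inj {X : Finset Plane} {H : Plane → ℝ} {t δ : ℝ} {T T' : Plane × Plane × Plane}
    (hX : T.1 ∈ X ∧ T.2.1 ∈ X ∧ T.2.2 ∈ X) (hX' : T'.1 ∈ X ∧ T'.2.1 ∈ X ∧ T'.2.2 ∈ X)
    (hT : IsCell X H t δ T) (hT' : IsCell X H t δ T') (hb : T.2.1 = T'.2.1)
    (hs : 0 < sg t T ↔ 0 < sg t T') : T = T' := by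
  obtain ⟨o1, o2, o3, p, q, hf, hex, -⟩ := hT
  obtain ⟨o1', o2', o3', p', q', hf', hex', -⟩ := hT'
  have s1 := sg_ne o1 o2 o3
  have s2 := sg_ne o1' o2' o3'
  have e1 := sg_eq o1 o2
  have e2 := sg_eq o1' o2'
  obtain ⟨t1, t2⟩ := th_mem o1 o2
  obtain ⟨t1', t2'⟩ := th_mem o1' o2'
  obtain ⟨xa, xb, xc⟩ := hX
  obtain ⟨xa', xb', xc'⟩ := hX'
  have ta := (hex _ xa).2 (Or.inl rfl)
  have tb := (hex _ xb).2 (Or.inr (Or.inl rfl))
  have tc := (hex _ xc).2 (Or.inr (Or.inr rfl))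
  have ta' := (hex' _ xa').2 (Or.inl rfl)
  have tb' := (hex' _ xb').2 (Or.inr (Or.inl rfl))
  have tc' := (hex' _ xc').2 (Or.inr (Or.inr rfl))
  -- the ratios
  set s := sg t T with hsdef
  set s' := sg t T' with hs'def
  obtain ⟨r, r', hr0, hr1, hr0', hr1', hrr⟩ : ∃ r r' : ℝ, 0 < r ∧ r < 1 ∧ 0 < r' ∧ r' < 1 ∧
      r * s = r' * s' := by
    rcases lt_or_gt_of_ne s1 with h | h
    · have h' : s' < 0 := by
        rcases lt_or_gt_of_ne s2 with h2 | h2
        · exact h2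
        · exact absurd (hs.2 h2) (by linarith)
      refine ⟨s' / (s + s'), s / (s + s'), ?_, ?_, ?_, ?_, ?_⟩
      · exact div_pos_of_neg_of_neg h' (by linarith)
      · rw [div_lt_one_of_neg (by linarith)]; linarith
      · exact div_pos_of_neg_of_neg h (by linarith)
      · rw [div_lt_one_of_neg (by linarith)]; linarith
      · ring
    · have h' : 0 < s' := hs.1 h
      refine ⟨s' / (s + s'), s / (s + s'), by positivity, ?_, by positivity, ?_, ?_⟩
      · rw [div_lt_one (by linarith)]; linarith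
      · rw [div_lt_one (by linarith)]; linarith
      · ring
  have hz : (r * (1 - th t T)) • T.1 + (1 - r) • T.2.1 + (r * th t T) • T.2.2 =
      (r' * (1 - th t T')) • T'.1 + (1 - r') • T'.2.1 + (r' * th t T') • T'.2.2 := by
    have l1 : (r * (1 - th t T)) • T.1 + (1 - r) • T.2.1 + (r * th t T) • T.2.2 =
        T.2.1 + (r * s) • dir t := by
      have : (r * (1 - th t T)) • T.1 + (1 - r) • T.2.1 + (r * th t T) • T.2.2 =
        (1 - r) • T.2.1 + r • ((1 - th t T) • T.1 + th t T • T.2.2) := by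
        rw [smul_add, smul_smul, smul_smul]; abel
      rw [this, e1, smul_add, sub_smul, one_smul, smul_smul]; abel
    have l2 : (r' * (1 - th t T')) • T'.1 + (1 - r') • T'.2.1 + (r' * th t T') • T'.2.2 =
        T'.2.1 + (r' * s') • dir t := by
      have : (r' * (1 - th t T')) • T'.1 + (1 - r') • T'.2.1 + (r' * th t T') • T'.2.2 =
        (1 - r') • T'.2.1 + r' • ((1 - th t T') • T'.1 + th t T' • T'.2.2) := by
        rw [smul_add, smul_smul, smul_smul]; abel
      rw [this, e2, smul_add, sub_smul, one_smul, smul_smul]; abel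
    rw [l1, l2, hrr, hb]
  have pos1 : 0 < r * (1 - th t T) ∧ 0 < 1 - r ∧ 0 < r * th t T :=
    ⟨mul_pos hr0 (by linarith), by linarith, mul_pos hr0 t1⟩
  have pos2 : 0 < r' * (1 - th t T') ∧ 0 < 1 - r' ∧ 0 < r' * th t T' :=
    ⟨mul_pos hr0' (by linarith), by linarith, mul_pos hr0' t1'⟩
  obtain ⟨u1, -, u3⟩ := uniq_aux ta tb tc ta' tb' tc' (hf' _ xa) (hf' _ xb) (hf' _ xc)
    (hf _ xa') (hf _ xb') (hf _ xc') pos1 pos2 (by ring) (by ring) hz
  have m1 := (hex _ xa').1 u1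
  have m3 := (hex _ xc').1 u3
  have k1 : T'.1 = T.1 := by
    rcases m1 with h | h | h
    · exact h
    · rw [← hb, ← h] at o1'; exact absurd o1' (lt_irrefl _)
    · rw [← hb, h] at o1'; linarith
  have k3 : T'.2.2 = T.2.2 := by
    rcases m3 with h | h | h
    · rw [← hb, h] at o2'; linarith
    · rw [← hb, ← h] at o2'; exact absurd o2' (lt_irrefl _)
    · exact h
  exact Prod.ext k1.symm (Prod.ext hb k3.symm)

lemma card_cells_le {X : Finset Plane} {H : Plane → ℝ} {t δ : ℝ}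
    (C : Finset (Plane × Plane × Plane))
    (hC : ∀ T ∈ C, (T.1 ∈ X ∧ T.2.1 ∈ X ∧ T.2.2 ∈ X) ∧ IsCell X H t δ T) :
    C.card ≤ 2 * X.card := by
  classical
  have : C.card ≤ (X ×ˢ (Finset.univ : Finset Bool)).card := by
    apply Finset.card_le_card_of_injOn (fun T => (T.2.1, decide (0 < sg t T)))
    · intro T hT
      simp only [Finset.mem_coe, Finset.mem_product, Finset.mem_univ, and_true]
      exact (hC T hT).1.2.1
    · intro T hT T' hT' h
      simp only [Prod.mk.injEq, decide_eq_decide] at h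
      exact cell_inj (hC T hT).1 (hC T' hT').1 (hC T hT).2 (hC T' hT').2 h.1 h.2
  rw [Finset.card_product, Finset.card_univ, Fintype.card_bool] at this
  linarith

end CoverConn
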