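import Pool.Agent.Helper54.Cover.Kershner2
import Pool.Agent.Helper54.Cover.Area

open Metric Set MeasureTheory

namespace CoverConn

/-- the family of closed cells covers all points off the segments -/
lemma exists_cell {X : Finset Plane} {R δ t : ℝ} (hδ : 0 < δ) (hδ1 : δ ≤ 1)
    (hcov : ∀ z : Plane, ‖z‖ ≤ R → ∃ x ∈ X, dist z x ≤ 1)
    {ε : Plane → ℝ} (hε : ∀ x ∈ X, 0 < ε x ∧ ε x < δ)
    (hgen : ∀ Q ⊆ X, Q.card = 4 →
      ¬ ∃ (p : Plane) (q : ℝ), ∀ x ∈ Q, ‖x‖ ^ 2 + ε x = 2 * inner ℝ p x + q)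
    (ht : Set.InjOn (ell t) X) {z : Plane} (hz : ‖z‖ ≤ R - 2)
    (hseg : ∀ x ∈ X, ∀ y ∈ X, z ∉ segment ℝ x y) :
    ∃ T : Plane × Plane × Plane, (T.1 ∈ X ∧ T.2.1 ∈ X ∧ T.2.2 ∈ X) ∧
      IsCell X (fun x => ‖x‖ ^ 2 + ε x) t δ T ∧ z ∈ convexHull ℝ {T.1, T.2.1, T.2.2} := by
  classical
  have hR : 2 ≤ R := by have := norm_nonneg z; linarith
  have hdir : ∀ p : Plane, ∃ x ∈ X, ‖p‖ ≤ inner ℝ p (x - z) := by
    intro p
    rcases eq_or_ne p 0 with rfl | hp
    · obtain ⟨x, hx, -⟩ := hcov z (by linarith)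
      exact ⟨x, hx, by simp⟩
    · have hp0 : 0 < ‖p‖ := norm_pos_iff.2 hp
      obtain ⟨x, hx, hwx⟩ := hcov (z + (2 / ‖p‖) • p) (by
        calc _ ≤ ‖z‖ + ‖(2 / ‖p‖) • p‖ := norm_add_le _ _
          _ = ‖z‖ + 2 := by
            rw [norm_smul, Real.norm_eq_abs, abs_of_pos (by positivity),
              div_mul_cancel₀ _ hp0.ne']
          _ ≤ R := by linarith)
      refine ⟨x, hx, ?_⟩
      rw [dist_eq_norm] at hwx
      have h1 : x - z = (2 / ‖p‖) • p - (z + (2 / ‖p‖) • p - x) := by abel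
      rw [h1, inner_sub_right, real_inner_smul_right, real_inner_self_eq_norm_sq]
      have h2 : inner ℝ p (z + (2 / ‖p‖) • p - x) ≤ ‖p‖ * 1 :=
        (real_inner_le_norm _ _).trans (mul_le_mul_of_nonneg_left hwx hp0.le)
      have h3 : 2 / ‖p‖ * ‖p‖ ^ 2 = 2 * ‖p‖ := by field_simp
      rw [h3]; linarith
  obtain ⟨p, q, hfeas, hconv⟩ := exists_tight X (fun x => ‖x‖ ^ 2 + ε x) z hdir
  set A := X.filter fun x => 2 * inner ℝ p x + q = ‖x‖ ^ 2 + ε x with hA
  have hAX : A ⊆ X := Finset.filter_subset _ _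
  have hAt : ∀ x ∈ A, 2 * inner ℝ p x + q = ‖x‖ ^ 2 + ε x := fun x hx => (Finset.mem_filter.1 hx).2
  have hrad := radius_bound hδ hδ1 hcov hε hfeas hAX hAt hz hconv
  have hcard : A.card ≤ 3 := by
    by_contra hcon
    push Not at hcon
    obtain ⟨Q, hQA, hQ⟩ := Finset.exists_subset_card_eq (n := 4) (s := A) hcon
    exact hgen Q (hQA.trans hAX) hQ ⟨p, q, fun x hx => (hAt x (hQA hx)).symm⟩
  -- small cases
  have h3 : A.card = 3 := by
    interval_cases hc : A.card
    · rw [Finset.card_eq_zero.1 hc] at hconv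
      simp at hconv
    · obtain ⟨a, ha⟩ := Finset.card_eq_one.1 hc
      rw [ha] at hconv
      simp only [Finset.coe_singleton, convexHull_singleton, mem_singleton_iff] at hconv
      exfalso
      have haX : a ∈ X := hAX (by rw [ha]; simp)
      apply hseg a haX a haX
      rw [hconv]; exact left_mem_segment ℝ a a
    · obtain ⟨a, b, -, hab⟩ := Finset.card_eq_two.1 hc
      rw [hab] at hconv
      simp only [Finset.coe_insert, Finset.coe_singleton, convexHull_pair] at hconv
      exact absurd hconv (hseg a (hAX (by rw [hab]; simp)) b (hAX (by rw [hab]; simp)))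
    · rfl
  obtain ⟨a, b, c, hab, hac, hbc, habc⟩ := Finset.card_eq_three.1 h3
  -- finish for a sorted triple
  have fin : ∀ a b c : Plane, A = {a, b, c} → ell t a < ell t b → ell t b < ell t c →
      ∃ T : Plane × Plane × Plane, (T.1 ∈ X ∧ T.2.1 ∈ X ∧ T.2.2 ∈ X) ∧
      IsCell X (fun x => ‖x‖ ^ 2 + ε x) t δ T ∧ z ∈ convexHull ℝ {T.1, T.2.1, T.2.2} := by
    intro a b c hABC h1 h2
    have ha : a ∈ A := by rw [hABC]; simp
    have hb : b ∈ A := by rw [hABC]; simp
    have hc : c ∈ A := by rw [hABC]; simp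
    rw [hABC] at hconv
    simp only [Finset.coe_insert, Finset.coe_singleton] at hconv
    refine ⟨(a, b, c), ⟨hAX ha, hAX hb, hAX hc⟩, ⟨h1, h2, ?_, p, q, hfeas, ?_, hrad a ha, hrad b hb,
      hrad c hc⟩, hconv⟩
    · intro hbseg
      apply hseg a (hAX ha) c (hAX hc)
      have hsub : convexHull ℝ {a, b, c} ⊆ segment ℝ a c := by
        apply convexHull_min _ (convex_segment a c)
        rintro y (rfl | rfl | rfl)
        · exact left_mem_segment ℝ _ _
        · exact hbseg
        · exact right_mem_segment ℝ _ _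
      exact hsub hconv
    · intro x hx
      have : (2 * inner ℝ p x + q = ‖x‖ ^ 2 + ε x) ↔ x ∈ A := by
        rw [hA, Finset.mem_filter]; simp [hx]
      rw [this, hABC]
      simp
  have nab : ell t a ≠ ell t b := fun h => hab (ht (hAX (by rw [habc]; simp)) (hAX (by rw [habc]; simp)) h)
  have nac : ell t a ≠ ell t c := fun h => hac (ht (hAX (by rw [habc]; simp)) (hAX (by rw [habc]; simp)) h)
  have nbc : ell t b ≠ ell t c := fun h => hbc (ht (hAX (by rw [habc]; simp)) (hAX (by rw [habc]; simp)) h)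
  rcases lt_or_gt_of_ne nab with h1 | h1 <;> rcases lt_or_gt_of_ne nac with h2 | h2 <;>
    rcases lt_or_gt_of_ne nbc with h3 | h3
  · exact fin a b c habc h1 h3
  · exact fin a c b (by rw [habc]; ext; simp; tauto) h2 h3
  · linarith
  · exact fin c a b (by rw [habc]; ext; simp; tauto) h2 h1
  · exact fin b a c (by rw [habc]; ext; simp; tauto) h1 h2
  · linarith
  · exact fin b c a (by rw [habc]; ext; simp; tauto) h3 h2
  · exact fin c b a (by rw [habc]; ext; simp; tauto) h3 h1

/-- **Kershner's bound** with explicit error term -/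
theorem kershner {X : Finset Plane} {R : ℝ} (hR : 2 ≤ R)
    (hcov : ∀ z : Plane, ‖z‖ ≤ R → ∃ x ∈ X, dist z x ≤ 1) :
    Real.pi * (R - 2) ^ 2 ≤ 3 * √3 / 2 * X.card := by
  classical
  have main : ∀ δ : ℝ, 0 < δ → δ ≤ 1 → Real.pi * (R - 2) ^ 2 ≤ 3 * √3 / 2 * X.card * (1 + δ) := by
    intro δ hδ hδ1
    obtain ⟨ε, hε, hgen⟩ := exists_generic X hδ
    obtain ⟨t, ht⟩ := exists_ell X
    let C : Finset (Plane × Plane × Plane) := (X ×ˢ (X ×ˢ X)).filter
      (fun T => IsCell X (fun x => ‖x‖ ^ 2 + ε x) t δ T)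
    have hC : ∀ T ∈ C, (T.1 ∈ X ∧ T.2.1 ∈ X ∧ T.2.2 ∈ X) ∧
        IsCell X (fun x => ‖x‖ ^ 2 + ε x) t δ T := by
      intro T hT
      simp only [C, Finset.mem_filter, Finset.mem_product] at hT
      exact hT
    have hcard := card_cells_le C hC
    let S : Set Plane := ⋃ x ∈ X, ⋃ y ∈ X, segment ℝ x y
    have hS : volume S = 0 := by
      simp only [S]
      refine (measure_biUnion_null_iff (I := (X : Set Plane)) X.countable_toSet).2 ?_
      intro x _
      refine (measure_biUnion_null_iff (I := (X : Set Plane)) X.countable_toSet).2 ?_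
      intro y _
      exact volume_segment x y
    have hsub : closedBall (0 : Plane) (R - 2) ⊆
        S ∪ ⋃ T ∈ C, convexHull ℝ {T.1, T.2.1, T.2.2} := by
      intro z hz
      rw [mem_closedBall_zero_iff] at hz
      by_cases hzS : z ∈ S
      · exact Or.inl hzS
      · right
        have hseg : ∀ x ∈ X, ∀ y ∈ X, z ∉ segment ℝ x y := by
          intro x hx y hy h
          apply hzS
          simp only [S, mem_iUnion]
          exact ⟨x, hx, y, hy, h⟩
        obtain ⟨T, hTX, hT, hTz⟩ := exists_cell hδ hδ1 hcov hε hgen ht hz hseg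
        simp only [mem_iUnion]
        refine ⟨T, ?_, hTz⟩
        simp only [C, Finset.mem_filter, Finset.mem_product]
        exact ⟨hTX, hT⟩
    have hvol : volume (closedBall (0 : Plane) (R - 2)) ≤
        ENNReal.ofReal (C.card * (3 * √3 / 4 * (1 + δ))) := by
      calc _ ≤ volume S + volume (⋃ T ∈ C, convexHull ℝ {T.1, T.2.1, T.2.2}) :=
            (measure_mono hsub).trans (measure_union_le _ _)
        _ ≤ 0 + ∑ T ∈ C, volume (convexHull ℝ {T.1, T.2.1, T.2.2}) := by
            rw [hS]; gcongr; exact measure_biUnion_finset_le _ _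
        _ ≤ ∑ T ∈ C, ENNReal.ofReal (3 * √3 / 4 * (1 + δ)) := by
            rw [zero_add]
            apply Finset.sum_le_sum
            intro T hT
            refine (volume_convexHull_le _ _ _).trans (ENNReal.ofReal_le_ofReal ?_)
            obtain ⟨-, -, -, p, q, -, -, r1, r2, r3⟩ := (hC T hT).2
            exact det_le r1 r2 r3
        _ = _ := by
            rw [Finset.sum_const, nsmul_eq_mul,
              ENNReal.ofReal_mul (p := (C.card : ℝ)) (by positivity), ENNReal.ofReal_natCast]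
    rw [EuclideanSpace.volume_closedBall_fin_two, ← ENNReal.ofReal_pow (by linarith),
      ← ENNReal.ofReal_mul (by positivity), ENNReal.ofReal_le_ofReal_iff (by positivity)] at hvol
    have h1 : (C.card : ℝ) ≤ 2 * X.card := by exact_mod_cast hcard
    have h2 : 0 ≤ 3 * √3 / 4 * (1 + δ) := by positivity
    have h3 := mul_le_mul_of_nonneg_right h1 h2
    linarith
  by_contra hcon
  push Not at hcon
  have hlim : Filter.Tendsto (fun δ : ℝ => 3 * √3 / 2 * X.card * (1 + δ)) (nhdsWithin 0 (Ioi 0))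
      (nhds (3 * √3 / 2 * X.card * (1 + 0))) := by
    apply Filter.Tendsto.mono_left _ nhdsWithin_le_nhds
    exact (Continuous.tendsto (by fun_prop) 0)
  rw [add_zero, mul_one] at hlim
  have hev := hlim.eventually_lt_const hcon
  have hev2 : ∀ᶠ δ in nhdsWithin (0 : ℝ) (Ioi 0), δ ∈ Ioo (0 : ℝ) 1 := Ioo_mem_nhdsGT one_pos
  obtain ⟨δ, h1, h2, h3⟩ := (hev.and hev2).exists
  exact absurd (main δ h2 h3.le) (not_le.2 h1)

end CoverConn
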