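import Pool.Agent.Helper54.Cover.Upper
import Pool.Agent.Helper54.Cover.Rho

open Metric Set

namespace CoverConn

lemma preconnected_of_gt {r c : ℝ} (hr : 0 < r) {k : ℕ} (hk : 1 ≤ k)
    (hc : 1 + sSup (radii (k - 1)) < c) {P : Set Plane} (hP : Covers r P) {S : Set (Sym2 P)}
    (hS : S.encard < k) : ((distGraph r c P).deleteEdges S).Preconnected := by
  classical
  by_contra hn
  have h1 := one_le_sSup_radii (k - 1)
  have hSfin : S.Finite := Set.finite_of_encard_le_coe hS.le
  obtain ⟨T, hT, hT2⟩ := exists_config hr (by linarith) hP hSfin hn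
  have hcard : T.card ≤ k - 1 := by
    have : (S.ncard : ENat) < k := by rwa [hSfin.cast_ncard_eq]
    have h2 : S.ncard < k := by exact_mod_cast this
    omega
  have hmem : c - 1 ∈ radii (k - 1) := by
    apply radii_mono hcard
    obtain ⟨e⟩ : Nonempty (Fin T.card ≃ T) := ⟨T.equivFin.symm⟩
    refine ⟨fun i => r⁻¹ • (e i : Plane), ?_⟩
    -- the union of the closed discs is closed
    let C : Set Plane := closedBall 0 1 ∪ ⋃ i, closedBall (r⁻¹ • (e i : Plane)) 1
    have hC : IsClosed C :=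
      isClosed_closedBall.union (isClosed_iUnion_of_finite fun _ => isClosed_closedBall)
    have hsub : ball (0 : Plane) (c - 1) ⊆ C := by
      intro z hz
      rw [mem_ball_zero_iff] at hz
      have h3 : ‖r • z‖ < (c - 1) * r := by
        rw [norm_smul, Real.norm_eq_abs, abs_of_pos hr, mul_comm]
        exact mul_lt_mul_of_pos_right hz hr
      rcases hT2 _ h3 with h | ⟨x, hx, hzx⟩
      · left
        rw [mem_closedBall_zero_iff]
        rw [norm_smul, Real.norm_eq_abs, abs_of_pos hr] at h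
        nlinarith
      · right
        rw [mem_iUnion]
        refine ⟨e.symm ⟨x, hx⟩, ?_⟩
        rw [mem_closedBall, Equiv.apply_symm_apply]
        have h4 : dist (r • z) x = r * dist z (r⁻¹ • x) := by
          have : x = r • (r⁻¹ • x) := by rw [smul_smul, mul_inv_cancel₀ hr.ne', one_smul]
          conv_lhs => rw [this]
          rw [dist_smul₀, Real.norm_eq_abs, abs_of_pos hr]
        rw [h4] at hzx
        simp only
        nlinarith
    have hsub2 : closedBall (0 : Plane) (c - 1) ⊆ C := by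
      rw [← closure_ball (0 : Plane) (by linarith : c - 1 ≠ 0)]
      exact closure_minimal hsub hC
    intro z hz
    have := hsub2 (mem_closedBall_zero_iff.2 hz)
    rcases this with h | h
    · left; rwa [mem_closedBall_zero_iff] at h
    · right; rw [mem_iUnion] at h; exact h
  have := mem_radii_iff.1 hmem
  linarith

lemma not_preconnected_of_le {r c : ℝ} (hr : 0 < r) {k : ℕ} (hk : 1 ≤ k)
    (hc : c ≤ 1 + sSup (radii (k - 1))) : ∃ P : Set Plane, Covers r P ∧
      ∃ S : Set (Sym2 P), S.encard < k ∧ ¬ ((distGraph r c P).deleteEdges S).Preconnected := by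
  classical
  set ρ := sSup (radii (k - 1)) with hρ
  have h1 : 1 ≤ ρ := one_le_sSup_radii (k - 1)
  obtain ⟨x, hx⟩ := sSup_mem_radii (k - 1)
  rw [← hρ] at hx
  let P : Set Plane := {0} ∪ Set.range (fun i => r • x i) ∪ {p | (1 + ρ) * r ≤ ‖p‖}
  have h0P : (0 : Plane) ∈ P := Or.inl (Or.inl rfl)
  have hxP : ∀ i, r • x i ∈ P := fun i => Or.inl (Or.inr ⟨i, rfl⟩)
  have hpos : 0 < (1 + ρ) * r := by positivity
  have hcov : Covers r P := by
    intro z
    rcases le_or_gt ((1 + ρ) * r) ‖z‖ with h | h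
    · exact ⟨z, Or.inr h, by simpa using hr.le⟩
    rcases le_or_gt ‖z‖ (ρ * r) with h2 | h2
    · have h3 : ‖r⁻¹ • z‖ ≤ ρ := by
        rw [norm_smul, norm_inv, Real.norm_eq_abs, abs_of_pos hr, inv_mul_le_iff₀ hr, mul_comm]
        exact h2
      rcases hx _ h3 with h4 | ⟨i, hi⟩
      · refine ⟨0, h0P, ?_⟩
        rw [norm_smul, norm_inv, Real.norm_eq_abs, abs_of_pos hr, inv_mul_le_iff₀ hr, mul_one] at h4
        rwa [dist_zero_right]
      · refine ⟨r • x i, hxP i, ?_⟩
        have : z = r • (r⁻¹ • z) := by rw [smul_smul, mul_inv_cancel₀ hr.ne', one_smul]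
        rw [this, dist_smul₀, Real.norm_eq_abs, abs_of_pos hr]
        nlinarith
    · have hz : 0 < ‖z‖ := lt_of_le_of_lt (by positivity) h2
      refine ⟨((1 + ρ) * r / ‖z‖) • z, Or.inr ?_, ?_⟩
      · simp only [mem_ofPred_eq]
        rw [norm_smul, Real.norm_eq_abs, abs_of_pos (div_pos hpos hz), div_mul_cancel₀ _ hz.ne']
      · have h5 : z - ((1 + ρ) * r / ‖z‖) • z = (1 - (1 + ρ) * r / ‖z‖) • z := by
          rw [sub_smul, one_smul]
        have h6 : |1 - (1 + ρ) * r / ‖z‖| * ‖z‖ = |‖z‖ - (1 + ρ) * r| := by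
          conv_lhs => rw [← abs_of_pos hz, ← abs_mul, abs_of_pos hz]
          rw [sub_mul, one_mul, div_mul_cancel₀ _ hz.ne']
        rw [dist_eq_norm, h5, norm_smul, Real.norm_eq_abs, h6, abs_le]
        constructor <;> linarith
  refine ⟨P, hcov, Set.range (fun i => s((⟨0, h0P⟩ : P), (⟨r • x i, hxP i⟩ : P))), ?_, ?_⟩
  · calc _ ≤ (Set.univ : Set (Fin (k - 1))).encard := by
          rw [← Set.image_univ]; exact Set.encard_image_le _ _
      _ = ((k - 1 : ℕ) : ENat) := by simp
      _ < k := by exact_mod_cast (by omega)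
  · intro hconn
    -- a far vertex
    obtain ⟨w, hw⟩ : ∃ w : Plane, ‖w‖ = (1 + ρ) * r := by
      obtain ⟨w, hw⟩ := exists_norm_eq Plane hpos.le
      exact ⟨w, hw⟩
    have hwP : w ∈ P := Or.inr (by simp only [mem_ofPred_eq]; exact hw.ge)
    have hreach := hconn ⟨0, h0P⟩ ⟨w, hwP⟩
    obtain ⟨walk⟩ := hreach
    cases walk with
    | nil => 
      rw [norm_zero] at hw; linarith
    | @cons _ v _ hadj _ =>
      rw [SimpleGraph.deleteEdges_adj] at hadj
      obtain ⟨⟨hne, hd⟩, hnS⟩ := hadj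
      rcases v with ⟨v, hv⟩
      simp only [dist_zero_left] at hd
      rcases hv with (hv | ⟨i, hi⟩) | hv
      · apply hne; simp only [mem_singleton_iff] at hv; simp [hv]
      · apply hnS
        refine ⟨i, ?_⟩
        simp only at hi
        simp [hi]
      · simp only [mem_ofPred_eq] at hv
        have : c * r ≤ (1 + ρ) * r := mul_le_mul_of_nonneg_right hc hr.le
        linarith

theorem goodSet_eq {r : ℝ} (hr : 0 < r) {k : ℕ} (hk : 1 ≤ k) :
    goodSet r k = Ioi (1 + sSup (radii (k - 1))) := by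
  ext c
  simp only [goodSet, mem_ofPred_eq, mem_Ioi]
  have h1 := one_le_sSup_radii (k - 1)
  constructor
  · rintro ⟨-, h⟩
    by_contra hcon
    push Not at hcon
    obtain ⟨P, hP, S, hS, hn⟩ := not_preconnected_of_le hr hk hcon
    exact hn ((h P hP).2 S hS).preconnected
  · intro hc
    refine ⟨by linarith, fun P hP => ?_⟩
    obtain ⟨p, hp, -⟩ := hP 0
    have : Nonempty P := ⟨⟨p, hp⟩⟩
    refine ⟨⟨?_⟩, fun S hS => ⟨preconnected_of_gt hr hk hc hP hS⟩⟩
    have := preconnected_of_gt hr hk hc hP (S := ∅) (by simp; omega)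
    simpa using this

end CoverConn
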