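import Pool.Agent.Helper54.Cover.Arcs

open Metric Set MeasureTheory

namespace CoverConn

lemma ring_mem {m : ℕ} (hm : 0 < m) {d ρ : ℝ} (hd : 0 ≤ d)
    (h : ∀ s : ℝ, 1 < s → s ≤ ρ → s ^ 2 + d ^ 2 - 2 * s * d * Real.cos (Real.pi / m) ≤ 1) :
    ρ ∈ radii m := by
  have hm0 : (0 : ℝ) < m := by exact_mod_cast hm
  have hpi := Real.pi_pos
  refine ⟨fun j => d • e (2 * Real.pi * (j : ℕ) / m), fun z hz => ?_⟩
  rcases le_or_gt ‖z‖ 1 with h1 | h1
  · exact Or.inl h1
  right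
  obtain ⟨θ, hθ⟩ := exists_polar z
  set s := ‖z‖ with hs
  set n : ℤ := round (θ * m / (2 * Real.pi)) with hn
  have habs : |θ - 2 * Real.pi * n / m| ≤ Real.pi / m := by
    have h2 := abs_sub_round (θ * m / (2 * Real.pi))
    rw [← hn] at h2
    have h3 : θ - 2 * Real.pi * n / m = (θ * m / (2 * Real.pi) - n) * (2 * Real.pi / m) := by
      field_simp
    rw [h3, abs_mul, abs_of_pos (by positivity : 0 < 2 * Real.pi / m)]
    calc _ ≤ 1 / 2 * (2 * Real.pi / m) := by gcongr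
      _ = _ := by ring
  have hj : (n % (m : ℤ)).toNat < m := by
    have h1 := Int.emod_lt_of_pos n (by exact_mod_cast hm : (0 : ℤ) < m)
    have h2 := Int.emod_nonneg n (by omega : (m : ℤ) ≠ 0)
    omega
  refine ⟨⟨(n % (m : ℤ)).toNat, hj⟩, ?_⟩
  have hcos : Real.cos (θ - 2 * Real.pi * ((n % (m : ℤ)).toNat : ℕ) / m) =
      Real.cos (θ - 2 * Real.pi * n / m) := by
    have h2 := Int.emod_nonneg n (by omega : (m : ℤ) ≠ 0)
    have h3 : (((n % (m : ℤ)).toNat : ℕ) : ℝ) = ((n % (m : ℤ) : ℤ) : ℝ) := by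
      have : (((n % (m : ℤ)).toNat : ℕ) : ℤ) = n % (m : ℤ) := Int.toNat_of_nonneg h2
      exact_mod_cast congrArg (Int.cast : ℤ → ℝ) this
    have h4 : (n : ℝ) = ((n % (m : ℤ) : ℤ) : ℝ) + m * ((n / (m : ℤ) : ℤ) : ℝ) := by
      have := Int.emod_add_mul_ediv n m
      exact_mod_cast congrArg (Int.cast : ℤ → ℝ) this.symm
    rw [h3]
    have h5 : θ - 2 * Real.pi * n / m =
        θ - 2 * Real.pi * ((n % (m : ℤ) : ℤ) : ℝ) / m - ((n / (m : ℤ) : ℤ) : ℝ) * (2 * Real.pi) := by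
      rw [h4]; field_simp; ring
    rw [h5, Real.cos_sub_int_mul_two_pi]
  have hcos2 : Real.cos (Real.pi / m) ≤ Real.cos (θ - 2 * Real.pi * ((n % (m : ℤ)).toNat : ℕ) / m) := by
    rw [hcos, ← Real.cos_abs (θ - 2 * Real.pi * n / m)]
    apply Real.cos_le_cos_of_nonneg_of_le_pi (abs_nonneg _) _ habs
    exact div_le_self hpi.le (by exact_mod_cast hm)
  have h6 := dist_sq s d θ (2 * Real.pi * ((n % (m : ℤ)).toNat : ℕ) / m)
  have h7 := h s h1 hz
  have h8 : dist (s • e θ) (d • e (2 * Real.pi * ((n % (m : ℤ)).toNat : ℕ) / m)) ^ 2 ≤ 1 := by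
    rw [h6]
    have : 2 * s * d * Real.cos (Real.pi / m) ≤
        2 * s * d * Real.cos (θ - 2 * Real.pi * ((n % (m : ℤ)).toNat : ℕ) / m) :=
      mul_le_mul_of_nonneg_left hcos2 (by positivity)
    linarith
  rw [hθ]
  have h9 := dist_nonneg (x := s • e θ) (y := d • e (2 * Real.pi * ((n % (m : ℤ)).toNat : ℕ) / m))
  simp only
  nlinarith

lemma rho_le_two {m : ℕ} (hm : m ≤ 2) : sSup (radii m) = 1 := by
  apply le_antisymm _ (one_le_sSup_radii m)
  by_contra hcon
  push Not at hcon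
  have h1 := sin_bound (m := 2) le_rfl (radii_mono hm (sSup_mem_radii m)) hcon
  simp at h1
  linarith

lemma sin_pi_div_pos {m : ℕ} (hm : 2 ≤ m) : 0 < Real.sin (Real.pi / m) := by
  have hm0 : (2 : ℝ) ≤ m := by exact_mod_cast hm
  apply Real.sin_pos_of_pos_of_lt_pi (by positivity)
  exact div_lt_self Real.pi_pos (by linarith)

lemma rho_three_six {m : ℕ} (h3 : 3 ≤ m) (h6 : m ≤ 6) :
    sSup (radii m) = 1 / Real.sin (Real.pi / m) := by
  have hm3 : (3 : ℝ) ≤ m := by exact_mod_cast h3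
  have hm6 : (m : ℝ) ≤ 6 := by exact_mod_cast h6
  have hS := sin_pi_div_pos (m := m) (by omega)
  have hpi := Real.pi_pos
  have hxle : Real.pi / m ≤ Real.pi / 2 := by gcongr; linarith
  have hx6 : Real.pi / 6 ≤ Real.pi / m := by gcongr
  have hhalf : 1 / 2 ≤ Real.sin (Real.pi / m) := by
    rw [← Real.sin_pi_div_six]
    apply Real.sin_le_sin_of_le_of_le_pi_div_two _ hxle hx6
    linarith
  have hC : 0 ≤ Real.cos (Real.pi / m) := Real.cos_nonneg_of_neg_pi_div_two_le_of_le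
    (by have : 0 < Real.pi / m := by positivity
        linarith) hxle
  set S := Real.sin (Real.pi / m) with hSdef
  set C := Real.cos (Real.pi / m) with hCdef
  have hSC : S ^ 2 + C ^ 2 = 1 := Real.sin_sq_add_cos_sq _
  apply le_antisymm
  · rcases eq_or_lt_of_le (one_le_sSup_radii m) with h | h
    · rw [← h, le_div_iff₀ hS, one_mul]; exact Real.sin_le_one _
    · have := sin_bound (by omega) (sSup_mem_radii m) h
      rw [le_div_iff₀ hS]; exact this
  · rw [← mem_radii_iff]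
    apply ring_mem (d := C / S) (by omega) (by positivity)
    intro s hs1 hs
    rw [← hCdef]
    have hs' : s * S ≤ 1 := by rwa [le_div_iff₀ hS] at hs
    have h7 : s ^ 2 + (C / S) ^ 2 - 2 * s * (C / S) * C = 1 + (s * S - 1) * (s * S - (C ^ 2 - S ^ 2)) / S ^ 2 := by
      have : C ^ 2 = 1 - S ^ 2 := by linarith
      field_simp
      rw [this]; ring
    rw [h7]
    have h8 : (s * S - 1) * (s * S - (C ^ 2 - S ^ 2)) / S ^ 2 ≤ 0 := by
      apply div_nonpos_of_nonpos_of_nonneg _ (by positivity)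
      apply mul_nonpos_of_nonpos_of_nonneg (by linarith)
      nlinarith
    linarith

lemma ring_ge {m : ℕ} (hm : 3 ≤ m) : 4 * Real.cos (Real.pi / m) ^ 2 - 1 ≤ sSup (radii m) := by
  have hm3 : (3 : ℝ) ≤ m := by exact_mod_cast hm
  have hpi := Real.pi_pos
  have hxle : Real.pi / m ≤ Real.pi / 2 := by gcongr; linarith
  have hC : 0 ≤ Real.cos (Real.pi / m) := Real.cos_nonneg_of_neg_pi_div_two_le_of_le
    (by have : 0 < Real.pi / m := by positivity
        linarith) hxle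
  rw [← mem_radii_iff]
  apply ring_mem (d := 2 * Real.cos (Real.pi / m)) (by omega) (by positivity)
  intro s hs1 hs
  nlinarith

end CoverConn
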