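import Pool.Agent.Helper54.Cover.Small

open Metric Set MeasureTheory

namespace CoverConn

/-- the weighted sum of the two half-angles -/
noncomputable def FF (ρ d : ℝ) : ℝ :=
  Real.arccos (d / 2) + ρ / (ρ - 2) * Real.arccos ((ρ ^ 2 + d ^ 2 - 1) / (2 * ρ * d))

noncomputable def FF' (ρ d : ℝ) : ℝ :=
  -(1 / √(1 - (d / 2) ^ 2)) * (1 / 2) + ρ / (ρ - 2) *
    (-(1 / √(1 - ((ρ ^ 2 + d ^ 2 - 1) / (2 * ρ * d)) ^ 2)) * ((d ^ 2 - ρ ^ 2 + 1) / (2 * ρ * d ^ 2)))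

lemma FF_hasDerivAt {ρ d : ℝ} (h1 : 2.24 ≤ ρ) (h2 : ρ < 3) (hd1 : ρ - 1 < d) (hd2 : d < 2) :
    HasDerivAt (FF ρ) (FF' ρ d) d := by
  have hd0 : 0 < d := by linarith
  have hρ0 : 0 < ρ := by linarith
  have hb1 : (ρ ^ 2 + d ^ 2 - 1) / (2 * ρ * d) < 1 := by
    rw [div_lt_one (by positivity)]; nlinarith
  have hb0 : 0 < (ρ ^ 2 + d ^ 2 - 1) / (2 * ρ * d) := by
    apply div_pos _ (by positivity); nlinarith
  have hA : HasDerivAt (fun d : ℝ => d / 2) (1 / 2) d := (hasDerivAt_id d).div_const 2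
  have hA2 : HasDerivAt (fun d : ℝ => Real.arccos (d / 2)) (-(1 / √(1 - (d / 2) ^ 2)) * (1 / 2)) d :=
    (Real.hasDerivAt_arccos (by linarith) (by linarith)).comp d hA
  have hB : HasDerivAt (fun d : ℝ => (ρ ^ 2 + d ^ 2 - 1) / (2 * ρ * d))
      ((d ^ 2 - ρ ^ 2 + 1) / (2 * ρ * d ^ 2)) d := by
    have hn : HasDerivAt (fun d : ℝ => ρ ^ 2 + d ^ 2 - 1) (2 * d) d := by
      have := ((hasDerivAt_pow 2 d).const_add (ρ ^ 2)).sub_const 1
      simpa using this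
    have hdn : HasDerivAt (fun d : ℝ => 2 * ρ * d) (2 * ρ) d := by
      simpa using (hasDerivAt_id d).const_mul (2 * ρ)
    have := hn.fun_div hdn (by positivity)
    refine this.congr_deriv ?_
    field_simp
    ring
  have hB2 : HasDerivAt (fun d : ℝ => Real.arccos ((ρ ^ 2 + d ^ 2 - 1) / (2 * ρ * d)))
      (-(1 / √(1 - ((ρ ^ 2 + d ^ 2 - 1) / (2 * ρ * d)) ^ 2)) *
        ((d ^ 2 - ρ ^ 2 + 1) / (2 * ρ * d ^ 2))) d :=
    (Real.hasDerivAt_arccos (by linarith) (by linarith)).comp d hB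
  exact hA2.add (hB2.const_mul (ρ / (ρ - 2)))

lemma K_pos {ρ : ℝ} (h1 : 2.24 ≤ ρ) (x : ℝ) :
    0 < x ^ 2 - (2 * ρ ^ 2 - ρ + 1) * x + ρ ^ 4 - ρ ^ 2 := by
  have h : x ^ 2 - (2 * ρ ^ 2 - ρ + 1) * x + ρ ^ 4 - ρ ^ 2 =
      (x - (2 * ρ ^ 2 - ρ + 1) / 2) ^ 2 + (4 * ρ ^ 3 - 9 * ρ ^ 2 + 2 * ρ - 1) / 4 := by ring
  rw [h]
  have h3 : 0 < 4 * ρ ^ 3 - 9 * ρ ^ 2 + 2 * ρ - 1 := by
    nlinarith [mul_nonneg (sub_nonneg.2 h1) (sub_nonneg.2 h1), sq_nonneg ρ]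
  positivity

lemma FF'_eq {ρ d : ℝ} (h1 : 2.24 ≤ ρ) (h2 : ρ < 3) (hd1 : ρ - 1 < d) (hd2 : d < 2) :
    (d ^ 2 ≤ ρ + 1 → 0 ≤ FF' ρ d) ∧ (ρ + 1 ≤ d ^ 2 → FF' ρ d ≤ 0) := by
  have hd0 : 0 < d := by linarith
  have hρ0 : 0 < ρ := by linarith
  have hρ2 : 0 < ρ - 2 := by linarith
  have hb1 : (ρ ^ 2 + d ^ 2 - 1) / (2 * ρ * d) < 1 := by
    rw [div_lt_one (by positivity)]; nlinarith
  have hb0 : 0 < (ρ ^ 2 + d ^ 2 - 1) / (2 * ρ * d) := by
    apply div_pos _ (by positivity); nlinarith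
  set b := (ρ ^ 2 + d ^ 2 - 1) / (2 * ρ * d) with hb
  have hu2 : 0 < 1 - (d / 2) ^ 2 := by nlinarith
  have hw2 : 0 < 1 - b ^ 2 := by nlinarith
  set u := √(1 - (d / 2) ^ 2) with hu
  set w := √(1 - b ^ 2) with hw
  have hu0 : 0 < u := Real.sqrt_pos.2 hu2
  have hw0 : 0 < w := Real.sqrt_pos.2 hw2
  have husq : u ^ 2 = 1 - (d / 2) ^ 2 := Real.sq_sqrt hu2.le
  have hwsq : w ^ 2 = 1 - b ^ 2 := Real.sq_sqrt hw2.le
  have hbd : b * (2 * ρ * d) = ρ ^ 2 + d ^ 2 - 1 := div_mul_cancel₀ _ (by positivity)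
  have hpos : 0 < ρ ^ 2 - 1 - d ^ 2 := by nlinarith
  have hF : FF' ρ d = (ρ * (ρ ^ 2 - 1 - d ^ 2) * u - (ρ - 2) * (ρ * d ^ 2) * w) /
      (2 * ρ * d ^ 2 * u * w * (ρ - 2)) := by
    unfold FF'
    rw [← hb, ← hw, ← hu]
    field_simp
    ring
  have hden : 0 < 2 * ρ * d ^ 2 * u * w * (ρ - 2) := by positivity
  have hX : 0 < ρ * (ρ ^ 2 - 1 - d ^ 2) * u := by positivity
  have hY : 0 < (ρ - 2) * (ρ * d ^ 2) * w := by positivity
  have hdiff : (ρ * (ρ ^ 2 - 1 - d ^ 2) * u) ^ 2 - ((ρ - 2) * (ρ * d ^ 2) * w) ^ 2 =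
      (ρ + 1 - d ^ 2) * ((ρ - 1) * ((d ^ 2) ^ 2 - (2 * ρ ^ 2 - ρ + 1) * d ^ 2 + ρ ^ 4 - ρ ^ 2)) := by
    have h5 : ((ρ - 2) * (ρ * d ^ 2) * w) ^ 2 =
        (ρ - 2) ^ 2 * d ^ 2 * ((2 * ρ * d) ^ 2 - (b * (2 * ρ * d)) ^ 2) / 4 := by
      rw [mul_pow, hwsq]; ring
    rw [h5, hbd, mul_pow, husq]
    ring
  have hK := K_pos h1 (d ^ 2)
  have hK2 : 0 < (ρ - 1) * ((d ^ 2) ^ 2 - (2 * ρ ^ 2 - ρ + 1) * d ^ 2 + ρ ^ 4 - ρ ^ 2) :=
    mul_pos (by linarith) hK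
  constructor
  · intro h
    rw [hF]
    apply div_nonneg _ hden.le
    have : 0 ≤ (ρ * (ρ ^ 2 - 1 - d ^ 2) * u) ^ 2 - ((ρ - 2) * (ρ * d ^ 2) * w) ^ 2 := by
      rw [hdiff]; exact mul_nonneg (by linarith) hK2.le
    have h7 := (sq_le_sq₀ hY.le hX.le).1 (by linarith)
    linarith
  · intro h
    rw [hF]
    apply div_nonpos_of_nonpos_of_nonneg _ hden.le
    have h6 : (ρ * (ρ ^ 2 - 1 - d ^ 2) * u) ^ 2 - ((ρ - 2) * (ρ * d ^ 2) * w) ^ 2 ≤ 0 := by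
      rw [hdiff]; exact mul_nonpos_of_nonpos_of_nonneg (by linarith) hK2.le
    have h7 := (sq_le_sq₀ hX.le hY.le).1 (by linarith)
    linarith

lemma FF_continuousOn {ρ : ℝ} (h1 : 2.24 ≤ ρ) : ContinuousOn (FF ρ) (Icc (ρ - 1) 2) := by
  unfold FF
  apply ContinuousOn.add
  · exact Real.continuous_arccos.comp_continuousOn (by fun_prop)
  · apply ContinuousOn.mul continuousOn_const
    apply Real.continuous_arccos.comp_continuousOn
    apply ContinuousOn.div (by fun_prop) (by fun_prop)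
    intro d hd
    have : 0 < d := by linarith [hd.1]
    have : 0 < ρ := by linarith
    positivity

lemma FF_le {ρ d : ℝ} (h1 : 2.24 ≤ ρ) (h2 : ρ < 3) (hd1 : ρ - 1 ≤ d) (hd2 : d ≤ 2) :
    FF ρ d ≤ FF ρ (√(ρ + 1)) := by
  have hρ0 : 0 < ρ + 1 := by linarith
  set x := √(ρ + 1) with hx
  have hx0 : 0 < x := Real.sqrt_pos.2 hρ0
  have hxsq : x ^ 2 = ρ + 1 := Real.sq_sqrt hρ0.le
  have hxl : ρ - 1 < x := by
    by_contra hcon
    push Not at hcon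
    nlinarith
  have hxr : x < 2 := by
    by_contra hcon
    push Not at hcon
    nlinarith
  rcases le_total d x with h | h
  · have hmono : MonotoneOn (FF ρ) (Icc (ρ - 1) x) := by
      apply monotoneOn_of_hasDerivWithinAt_nonneg (convex_Icc _ _)
        ((FF_continuousOn h1).mono (Icc_subset_Icc_right hxr.le)) (f' := FF' ρ)
      · intro y hy
        rw [interior_Icc] at hy
        exact (FF_hasDerivAt h1 h2 hy.1 (hy.2.trans hxr)).hasDerivWithinAt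
      · intro y hy
        rw [interior_Icc] at hy
        apply (FF'_eq h1 h2 hy.1 (hy.2.trans hxr)).1
        rw [← hxsq]
        have := hy.1; have := hy.2
        nlinarith
    exact hmono ⟨hd1, h⟩ ⟨hxl.le, le_rfl⟩ h
  · have hanti : AntitoneOn (FF ρ) (Icc x 2) := by
      apply antitoneOn_of_hasDerivWithinAt_nonpos (convex_Icc _ _)
        ((FF_continuousOn h1).mono (Icc_subset_Icc_left hxl.le)) (f' := FF' ρ)
      · intro y hy
        rw [interior_Icc] at hy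
        exact (FF_hasDerivAt h1 h2 (hxl.trans hy.1) hy.2).hasDerivWithinAt
      · intro y hy
        rw [interior_Icc] at hy
        apply (FF'_eq h1 h2 (hxl.trans hy.1) hy.2).2
        rw [← hxsq]
        have := hy.1; have := hy.2
        nlinarith
    exact hanti ⟨le_rfl, hxr.le⟩ ⟨h, hd2⟩ h

lemma FF_top {ρ : ℝ} (h1 : 2.24 ≤ ρ) :
    FF ρ (√(ρ + 1)) = (1 + ρ / (ρ - 2)) * Real.arccos (√(ρ + 1) / 2) := by
  have hρ0 : 0 < ρ + 1 := by linarith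
  set x := √(ρ + 1) with hx
  have hx0 : 0 < x := Real.sqrt_pos.2 hρ0
  have hxsq : x ^ 2 = ρ + 1 := Real.sq_sqrt hρ0.le
  have hρ : 0 < ρ := by linarith
  unfold FF
  have : (ρ ^ 2 + x ^ 2 - 1) / (2 * ρ * x) = x / 2 := by
    rw [div_eq_div_iff (by positivity) two_ne_zero]
    have : ρ = x ^ 2 - 1 := by linarith
    rw [this]; ring
  rw [this]; ring

lemma W_bound {ρ d : ℝ} (h1 : 2.24 ≤ ρ) (h2 : ρ < 3) (hd : 0 ≤ d)
    (H1 : Real.pi / 2 ≤ (1 + ρ / (ρ - 2)) * Real.arccos (√(ρ + 1) / 2))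
    (H2 : ρ / (ρ - 2) * Real.arcsin (1 / ρ) ≤ (1 + ρ / (ρ - 2)) * Real.arccos (√(ρ + 1) / 2)) :
    Real.arccos (cA d) + ρ / (ρ - 2) * Real.arccos (cB ρ d) ≤
      (1 + ρ / (ρ - 2)) * Real.arccos (√(ρ + 1) / 2) := by
  have hpi := Real.pi_pos
  have hlam : 0 < ρ / (ρ - 2) := div_pos (by linarith) (by linarith)
  rcases eq_or_lt_of_le hd with h0 | h0
  · subst h0
    simp only [cA, cB, if_true]
    rw [Real.arccos_of_one_le (by norm_num)]
    linarith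
  have hcA : cA d = d / 2 := by unfold cA; rw [if_neg h0.ne']
  have hcB : cB ρ d = (ρ ^ 2 + d ^ 2 - 1) / (2 * ρ * d) := by unfold cB; rw [if_neg h0.ne']
  rcases le_or_gt (ρ - 1) d with h3 | h3
  · rcases le_or_gt d 2 with h4 | h4
    · rw [hcA, hcB, ← FF_top h1]
      exact FF_le h1 h2 h3 h4
    · rw [hcA, Real.arccos_of_one_le (by linarith), zero_add]
      refine le_trans ?_ H2
      exact mul_le_mul_of_nonneg_left (arccos_cB_le (by linarith) hd) hlam.le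
  · rw [hcB, Real.arccos_of_one_le (x := (ρ ^ 2 + d ^ 2 - 1) / (2 * ρ * d)) (by
      rw [le_div_iff₀ (by positivity)]; nlinarith), mul_zero, add_zero, hcA]
    exact (Real.arccos_le_pi_div_two.2 (by positivity)).trans H1

lemma theta_ge {ρ : ℝ} (h1 : 2.24 ≤ ρ) (h2 : ρ < 3) :
    √(3 - ρ) / 2 ≤ Real.arccos (√(ρ + 1) / 2) := by
  have h3 : Real.sin (Real.arccos (√(ρ + 1) / 2)) = √(3 - ρ) / 2 := by
    rw [Real.sin_arccos, div_pow, Real.sq_sqrt (by linarith)]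
    have : 1 - (ρ + 1) / 2 ^ 2 = (3 - ρ) / 2 ^ 2 := by ring
    rw [this, Real.sqrt_div (by linarith), Real.sqrt_sq (by norm_num)]
  rw [← h3]
  exact Real.sin_le (Real.arccos_nonneg _)

/-- the upper bound, given numerical conditions at `ρ₁` slightly above the target value -/
lemma upper_of {m : ℕ} (hm : 7 ≤ m) {ρ₁ : ℝ} (h1 : 2.24 ≤ 4 * Real.cos (Real.pi / m) ^ 2 - 1)
    (h2 : ρ₁ < 3) (h3 : 4 * Real.cos (Real.pi / m) ^ 2 - 1 < ρ₁)
    (H : ∀ ρ, 4 * Real.cos (Real.pi / m) ^ 2 - 1 < ρ → ρ ≤ ρ₁ → 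
      Real.pi / 2 ≤ (1 + ρ / (ρ - 2)) * Real.arccos (√(ρ + 1) / 2) ∧
      ρ / (ρ - 2) * Real.arcsin (1 / ρ) ≤ (1 + ρ / (ρ - 2)) * Real.arccos (√(ρ + 1) / 2)) :
    sSup (radii m) ≤ 4 * Real.cos (Real.pi / m) ^ 2 - 1 := by
  by_contra hcon
  push Not at hcon
  have hm7 : (7 : ℝ) ≤ m := by exact_mod_cast hm
  have hpi := Real.pi_pos
  set ρ := min (sSup (radii m)) ρ₁ with hρ
  have hρm : 4 * Real.cos (Real.pi / m) ^ 2 - 1 < ρ := lt_min hcon h3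
  have hρ3 : ρ < 3 := (min_le_right _ _).trans_lt h2
  have hmem : ρ ∈ radii m := mem_radii_iff.2 (min_le_left _ _)
  obtain ⟨H1, H2⟩ := H ρ hρm (min_le_right _ _)
  have hρl : 2.24 ≤ ρ := by linarith
  have hlam : 0 < ρ / (ρ - 2) := div_pos (by linarith) (by linarith)
  obtain ⟨x, hx⟩ := hmem
  have h4 := inner_cover (by linarith) hx
  have h5 := outer_cover (by linarith) hx
  set θ := Real.arccos (√(ρ + 1) / 2) with hθ
  have h6 : ∑ i, (Real.arccos (cA ‖x i‖) + ρ / (ρ - 2) * Real.arccos (cB ρ ‖x i‖)) ≤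
      m * ((1 + ρ / (ρ - 2)) * θ) := by
    calc _ ≤ ∑ i : Fin m, ((1 + ρ / (ρ - 2)) * θ) :=
          Finset.sum_le_sum fun i _ => W_bound hρl hρ3 (norm_nonneg _) H1 H2
      _ = _ := by simp
  rw [Finset.sum_add_distrib, ← Finset.mul_sum] at h6
  have h7 : (1 + ρ / (ρ - 2)) * Real.pi ≤ m * ((1 + ρ / (ρ - 2)) * θ) := by
    have := mul_le_mul_of_nonneg_left h5 hlam.le
    linarith
  have h8 : Real.pi ≤ m * θ := by
    have : (1 + ρ / (ρ - 2)) * Real.pi ≤ (1 + ρ / (ρ - 2)) * (m * θ) := by linarith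
    exact le_of_mul_le_mul_left this (by positivity)
  have h9 : Real.pi / m ≤ θ := by
    rw [div_le_iff₀ (by positivity)]; linarith
  have hxle : Real.pi / m ≤ Real.pi / 2 := by gcongr; linarith
  have hC : 0 ≤ Real.cos (Real.pi / m) := Real.cos_nonneg_of_neg_pi_div_two_le_of_le
    (by have : 0 < Real.pi / m := by positivity
        linarith) hxle
  have h10 : Real.cos θ ≤ Real.cos (Real.pi / m) := by
    apply Real.cos_le_cos_of_nonneg_of_le_pi (by positivity) (Real.arccos_le_pi _) h9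
  rw [hθ, Real.cos_arccos (by have := Real.sqrt_nonneg (ρ + 1); linarith) (by
    rw [div_le_one two_pos, Real.sqrt_le_left (by norm_num)]; linarith)] at h10
  have h11 : (√(ρ + 1) / 2) ^ 2 ≤ Real.cos (Real.pi / m) ^ 2 :=
    pow_le_pow_left₀ (by positivity) h10 2
  rw [div_pow, Real.sq_sqrt (by linarith)] at h11
  linarith

/-- numerical verification of the two conditions on an interval `[a, b]` -/
lemma cond_of {a b s ρ : ℝ} (ha : 2.24 ≤ a) (hb : b < 2.6) (haρ : a ≤ ρ) (hρb : ρ ≤ b) (hs : 0 ≤ s)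
    (hs2 : 4 * s ^ 2 ≤ 3 - b) (hs3 : 0.3 ≤ s)
    (hx : 1 / a ≤ (2 - 2 / a) * s - ((2 - 2 / a) * s) ^ 3 / 6 - ((2 - 2 / a) * s) ^ 5 / 100) :
    Real.pi / 2 ≤ (1 + ρ / (ρ - 2)) * Real.arccos (√(ρ + 1) / 2) ∧
      ρ / (ρ - 2) * Real.arcsin (1 / ρ) ≤ (1 + ρ / (ρ - 2)) * Real.arccos (√(ρ + 1) / 2) := by
  have hθ := theta_ge (ρ := ρ) (by linarith) (by linarith)
  set θ := Real.arccos (√(ρ + 1) / 2) with hθdef
  have hsθ : s ≤ θ := by
    refine le_trans ?_ hθ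
    rw [le_div_iff₀ two_pos]
    apply Real.le_sqrt_of_sq_le
    nlinarith
  have hρ2 : 0 < ρ - 2 := by linarith
  have hpi := Real.pi_lt_d2
  have hlam : 1 + ρ / (ρ - 2) = (2 * ρ - 2) / (ρ - 2) := by field_simp; ring
  constructor
  · rw [hlam]
    have h1 : 5.3 ≤ (2 * ρ - 2) / (ρ - 2) := by
      rw [le_div_iff₀ hρ2]; nlinarith
    have h2 : 0.3 ≤ θ := hs3.trans hsθ
    calc Real.pi / 2 ≤ 5.3 * 0.3 := by norm_num; linarith
      _ ≤ _ := mul_le_mul h1 h2 (by norm_num) (by linarith)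
  · have ha0 : 0 < a := by linarith
    have hρ0 : 0 < ρ := by linarith
    have key : Real.arcsin (1 / ρ) ≤ (2 - 2 / ρ) * θ := by
      have h3 : (2 - 2 / a) * s ≤ (2 - 2 / ρ) * θ := by
        have h4 : 2 / ρ ≤ 2 / a := by gcongr
        have h5 : 2 / a < 1 := by rw [div_lt_one ha0]; linarith
        apply mul_le_mul (by linarith) hsθ hs (by linarith)
      have h6 : Real.arcsin (1 / ρ) ≤ Real.arcsin (1 / a) := by
        apply Real.arcsin_le_arcsin; gcongr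
      refine h6.trans (le_trans ?_ h3)
      set y := (2 - 2 / a) * s with hy
      have hy0 : 0 ≤ y := by
        have h5 : 2 / a < 1 := by rw [div_lt_one ha0]; linarith
        exact mul_nonneg (by linarith) hs
      have hs1 : s ≤ 0.5 := by nlinarith
      have hy1 : y ≤ 1 := by
        have h5 : 0 < 2 / a := by positivity
        nlinarith
      have h7 := Real.sin_bound (x := y) (by rw [abs_of_nonneg hy0]; exact hy1)
      rw [abs_le, abs_of_nonneg hy0] at h7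
      have h8 : 1 / a ≤ Real.sin y := by linarith [h7.1]
      rw [Real.arcsin_le_iff_le_sin' ⟨by linarith [Real.pi_gt_three], by linarith [Real.pi_gt_three]⟩]
      exact h8
    have h9 : (1 + ρ / (ρ - 2)) * θ = ρ / (ρ - 2) * ((2 - 2 / ρ) * θ) := by
      rw [hlam]; field_simp
    rw [h9]
    exact mul_le_mul_of_nonneg_left key (by positivity)

end CoverConn
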