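import Pool.Agent.Helper54.Cover.Defs

open Metric Set

namespace CoverConn

/-- The exterior of a ball in the plane is preconnected. -/
lemma isPreconnected_exterior (R : ℝ) (hR : 0 ≤ R) : IsPreconnected {z : Plane | R < ‖z‖} := by
  have hrank : 1 < Module.rank ℝ Plane := by
    rw [← Module.finrank_eq_rank ℝ Plane]
    simp
  have h1 : IsPreconnected (sphere (0 : Plane) 1) := isPreconnected_sphere hrank 0 1
  have h2 : IsPreconnected ((sphere (0 : Plane) 1) ×ˢ (Ioi R)) := h1.prod isPreconnected_Ioi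
  have h3 := h2.image (fun p : Plane × ℝ => p.2 • p.1) (by fun_prop)
  convert h3 using 1
  ext z
  simp only [mem_ofPred_eq, mem_image, mem_prod, mem_sphere_iff_norm, sub_zero, mem_Ioi, Prod.exists]
  constructor
  · intro hz
    have hz0 : 0 < ‖z‖ := lt_of_le_of_lt hR hz
    refine ⟨‖z‖⁻¹ • z, ‖z‖, ⟨?_, hz⟩, ?_⟩
    · rw [norm_smul, norm_inv, norm_norm, inv_mul_cancel₀ hz0.ne']
    · rw [smul_smul, mul_inv_cancel₀ hz0.ne', one_smul]
  · rintro ⟨u, t, ⟨hu, ht⟩, rfl⟩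
    rw [norm_smul, hu, mul_one, Real.norm_eq_abs, abs_of_pos (lt_of_le_of_lt hR ht)]
    exact ht

/-- the set of short pairs across the cut -/
def cutPairs (r c : ℝ) (A B : Set Plane) : Set (Plane × Plane) :=
  {p | p.1 ∈ A ∧ p.2 ∈ B ∧ dist p.1 p.2 < c * r}

lemma bounded_or {r c : ℝ} (hr : 0 < r) (hc : 2 < c) {A B : Set Plane}
    (hcov : Covers r (A ∪ B)) (hfin : (cutPairs r c A B).Finite) :
    Bornology.IsBounded A ∨ Bornology.IsBounded B := by
  obtain ⟨δ, hδ, hδc⟩ : ∃ δ : ℝ, 0 < δ ∧ 2 * (r + δ) ≤ c * r := by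
    refine ⟨(c - 2) * r / 2, by have := mul_pos (sub_pos.2 hc) hr; linarith, by nlinarith⟩
  -- a bound for all the end points of cut pairs
  obtain ⟨R, hR0, hR⟩ : ∃ R : ℝ, 0 ≤ R ∧ ∀ p ∈ cutPairs r c A B, ‖p.1‖ ≤ R := by
    obtain ⟨R, hR⟩ := (hfin.image (fun p => ‖p.1‖)).bddAbove
    refine ⟨max R 0, le_max_right _ _, fun p hp => le_max_of_le_left (hR ⟨p, hp, rfl⟩)⟩
  set R' := R + (r + δ) with hR'
  have hR'0 : 0 ≤ R' := by positivity
  let UA : Set Plane := ⋃ a ∈ A, ball a (r + δ)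
  let UB : Set Plane := ⋃ b ∈ B, ball b (r + δ)
  have hUA : IsOpen UA := isOpen_biUnion fun _ _ => isOpen_ball
  have hUB : IsOpen UB := isOpen_biUnion fun _ _ => isOpen_ball
  have hcover : {z : Plane | R' < ‖z‖} ⊆ UA ∪ UB := by
    intro z _
    obtain ⟨p, hp, hzp⟩ := hcov z
    have hz : z ∈ ball p (r + δ) := by rw [mem_ball]; linarith
    rcases hp with hp | hp
    · exact Or.inl (mem_biUnion hp hz)
    · exact Or.inr (mem_biUnion hp hz)
  have hdisj : ¬ ({z : Plane | R' < ‖z‖} ∩ (UA ∩ UB)).Nonempty := by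
    rintro ⟨z, hz, hzA, hzB⟩
    simp only [UA, UB, mem_iUnion, mem_ball, exists_prop] at hzA hzB
    obtain ⟨a, ha, hza⟩ := hzA
    obtain ⟨b, hb, hzb⟩ := hzB
    have hab : dist a b < c * r := by
      calc dist a b ≤ dist a z + dist z b := dist_triangle _ _ _
        _ < (r + δ) + (r + δ) := by rw [dist_comm a z]; linarith
        _ ≤ c * r := by linarith
    have h1 := hR (a, b) ⟨ha, hb, hab⟩
    simp only at h1
    have h2 : ‖z‖ ≤ ‖a‖ + dist z a := by
      rw [dist_eq_norm]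
      calc ‖z‖ = ‖a + (z - a)‖ := by congr 1; abel
        _ ≤ _ := norm_add_le _ _
    have h3 : R' < ‖z‖ := hz
    linarith
  have key := isPreconnected_exterior R' hR'0 UA UB hUA hUB hcover
  by_cases hA : Bornology.IsBounded A
  · exact Or.inl hA
  by_cases hB : Bornology.IsBounded B
  · exact Or.inr hB
  exfalso
  have aux : ∀ C : Set Plane, ¬ Bornology.IsBounded C → ∃ z ∈ C, R' < ‖z‖ := by
    intro C hC
    by_contra hcon
    push Not at hcon
    exact hC (isBounded_iff_forall_norm_le.2 ⟨R', hcon⟩)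
  obtain ⟨a, ha, haR⟩ := aux A hA
  obtain ⟨b, hb, hbR⟩ := aux B hB
  have hrδ : 0 < r + δ := by positivity
  exact hdisj (key ⟨a, haR, mem_biUnion ha (mem_ball_self hrδ)⟩
    ⟨b, hbR, mem_biUnion hb (mem_ball_self hrδ)⟩)

/-- the difference trick -/
lemma diff_trick {r : ℝ} {A B : Set Plane} (hcov : Covers r (A ∪ B)) (hA : A.Nonempty)
    (hbd : Bornology.IsBounded A) (z : Plane) (hz : r < ‖z‖) (hr : 0 < r) :
    ∃ a ∈ A, ∃ b ∈ B, dist z (b - a) ≤ r := by
  by_contra hcon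
  push Not at hcon
  have hz0 : 0 < ‖z‖ := hr.trans hz
  -- the function `f a = ⟪z, a⟫` is bounded on A
  have hstep : ∀ a ∈ A, ∃ a' ∈ A, inner ℝ z a + ‖z‖ * (‖z‖ - r) ≤ inner ℝ z a' := by
    intro a ha
    obtain ⟨p, hp, hpz⟩ := hcov (z + a)
    have hpA : p ∈ A := by
      rcases hp with hp | hp
      · exact hp
      · exfalso
        have := hcon a ha p hp
        have h2 : dist z (p - a) = dist (z + a) p := by
          rw [dist_eq_norm, dist_eq_norm]; congr 1; abel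
        rw [h2] at this
        exact absurd hpz (not_le.2 this)
    refine ⟨p, hpA, ?_⟩
    have h1 : inner ℝ z p = inner ℝ z a + ‖z‖ ^ 2 - inner ℝ z (z + a - p) := by
      rw [inner_sub_right, inner_add_right, real_inner_self_eq_norm_sq]; ring
    have h2 : inner ℝ z (z + a - p) ≤ ‖z‖ * r := by
      calc inner ℝ z (z + a - p) ≤ ‖z‖ * ‖z + a - p‖ := real_inner_le_norm _ _
        _ ≤ ‖z‖ * r := by
          apply mul_le_mul_of_nonneg_left _ hz0.le
          rw [← dist_eq_norm]; exact hpz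
    rw [h1]; nlinarith
  obtain ⟨a₀, ha₀⟩ := hA
  have hpos : 0 < ‖z‖ * (‖z‖ - r) := mul_pos hz0 (sub_pos.2 hz)
  obtain ⟨M, hM⟩ := isBounded_iff_forall_norm_le.1 hbd
  have hn : ∀ n : ℕ, ∃ a ∈ A, inner ℝ z a₀ + n * (‖z‖ * (‖z‖ - r)) ≤ inner ℝ z a := by
    intro n
    induction n with
    | zero => exact ⟨a₀, ha₀, by simp⟩
    | succ n ih =>
      obtain ⟨a, ha, h⟩ := ih
      obtain ⟨a', ha', h'⟩ := hstep a ha
      refine ⟨a', ha', ?_⟩
      push_cast
      linarith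
  obtain ⟨n, hn'⟩ := exists_nat_gt ((‖z‖ * M - inner ℝ z a₀) / (‖z‖ * (‖z‖ - r)))
  obtain ⟨a, ha, h⟩ := hn n
  rw [div_lt_iff₀ hpos] at hn'
  have h3 : inner ℝ z a ≤ ‖z‖ * M :=
    (real_inner_le_norm _ _).trans (mul_le_mul_of_nonneg_left (hM a ha) hz0.le)
  linarith

lemma key_aux {r c : ℝ} (hr : 0 < r) {A B : Set Plane} (hA : A.Nonempty)
    (hcov : Covers r (A ∪ B)) (hfin : (cutPairs r c A B).Finite)
    (hbd : Bornology.IsBounded A) :
    ∃ T : Finset Plane, T.card ≤ (cutPairs r c A B).ncard ∧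
      ∀ z : Plane, ‖z‖ < (c - 1) * r → ‖z‖ ≤ r ∨ ∃ x ∈ T, dist z x ≤ r := by
  classical
  refine ⟨hfin.toFinset.image (fun p => p.2 - p.1), ?_, ?_⟩
  · calc _ ≤ hfin.toFinset.card := Finset.card_image_le
      _ = _ := (Set.ncard_eq_toFinset_card _ hfin).symm
  · intro z hz
    rcases le_or_gt ‖z‖ r with h | h
    · exact Or.inl h
    · right
      obtain ⟨a, ha, b, hb, hab⟩ := diff_trick hcov hA hbd z h hr
      refine ⟨b - a, ?_, hab⟩
      rw [Finset.mem_image]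
      refine ⟨(a, b), ?_, rfl⟩
      rw [Set.Finite.mem_toFinset]
      refine ⟨ha, hb, ?_⟩
      have h1 : dist a b = ‖b - a‖ := by rw [dist_comm, dist_eq_norm]
      have h2 : ‖b - a‖ ≤ ‖z‖ + dist z (b - a) := by
        rw [dist_comm, dist_eq_norm]
        calc ‖b - a‖ = ‖z + ((b - a) - z)‖ := by congr 1; abel
          _ ≤ _ := norm_add_le _ _
      simp only [h1]
      nlinarith

lemma key {r c : ℝ} (hr : 0 < r) (hc : 2 < c) {A B : Set Plane} (hA : A.Nonempty)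
    (hB : B.Nonempty) (hcov : Covers r (A ∪ B)) (hfin : (cutPairs r c A B).Finite) :
    ∃ T : Finset Plane, T.card ≤ (cutPairs r c A B).ncard ∧
      ∀ z : Plane, ‖z‖ < (c - 1) * r → ‖z‖ ≤ r ∨ ∃ x ∈ T, dist z x ≤ r := by
  rcases bounded_or hr hc hcov hfin with h | h
  · exact key_aux hr hA hcov hfin h
  · have hswap : cutPairs r c B A = Prod.swap '' cutPairs r c A B := by
      ext ⟨x, y⟩
      simp only [cutPairs, mem_ofPred_eq, mem_image, Prod.exists, Prod.swap_prod_mk, Prod.mk.injEq]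
      constructor
      · rintro ⟨h1, h2, h3⟩
        exact ⟨y, x, ⟨h2, h1, by rwa [dist_comm]⟩, rfl, rfl⟩
      · rintro ⟨a, b, ⟨h1, h2, h3⟩, rfl, rfl⟩
        exact ⟨h2, h1, by rwa [dist_comm]⟩
    have hfin' : (cutPairs r c B A).Finite := by rw [hswap]; exact hfin.image _
    obtain ⟨T, hT, hT2⟩ := key_aux (c := c) hr hB (by rwa [union_comm] at hcov) hfin' h
    refine ⟨T, ?_, hT2⟩
    rw [hswap] at hT
    exact hT.trans (Set.ncard_image_le hfin)

/-- If `G_c(P)` with the edge set `S` deleted is not connected then locally there is a disc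
configuration with few discs. -/
lemma exists_config {r c : ℝ} (hr : 0 < r) (hc : 2 < c) {P : Set Plane} (hP : Covers r P)
    {S : Set (Sym2 P)} (hS : S.Finite) (hn : ¬ ((distGraph r c P).deleteEdges S).Preconnected) :
    ∃ T : Finset Plane, T.card ≤ S.ncard ∧
      ∀ z : Plane, ‖z‖ < (c - 1) * r → ‖z‖ ≤ r ∨ ∃ x ∈ T, dist z x ≤ r := by
  classical
  unfold SimpleGraph.Preconnected at hn
  push Not at hn
  obtain ⟨u, v, huv⟩ := hn
  set H := (distGraph r c P).deleteEdges S with hH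
  let A : Set Plane := {a | ∃ h : a ∈ P, H.Reachable u ⟨a, h⟩}
  let B : Set Plane := {b | ∃ h : b ∈ P, ¬ H.Reachable u ⟨b, h⟩}
  have hA : A.Nonempty := ⟨u, u.2, SimpleGraph.Reachable.refl _⟩
  have hB : B.Nonempty := ⟨v, v.2, huv⟩
  have hcov : Covers r (A ∪ B) := by
    intro z
    obtain ⟨p, hp, hz⟩ := hP z
    refine ⟨p, ?_, hz⟩
    by_cases h : H.Reachable u ⟨p, hp⟩
    · exact Or.inl ⟨hp, h⟩
    · exact Or.inr ⟨hp, h⟩
  -- map from cut pairs to S
  have hmem : ∀ a b : P, (a : Plane) ∈ A → (b : Plane) ∈ B → dist (a : Plane) b < c * r →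
      s(a, b) ∈ S := by
    intro a b ha hb hab
    by_contra hcon
    obtain ⟨_, ha⟩ := ha
    obtain ⟨_, hb⟩ := hb
    apply hb
    refine ha.trans (SimpleGraph.Adj.reachable ?_)
    rw [hH, SimpleGraph.deleteEdges_adj]
    refine ⟨⟨?_, hab⟩, hcon⟩
    intro heq
    apply hb
    rw [← heq]; exact ha
  have hPdisj : ∀ x, x ∈ A → x ∈ B → False := by
    rintro x ⟨_, h1⟩ ⟨_, h2⟩; exact h2 h1
  -- an injection from cutPairs into S
  let f : Plane × Plane → Sym2 P := fun p =>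
    if h : p.1 ∈ P ∧ p.2 ∈ P then s(⟨p.1, h.1⟩, ⟨p.2, h.2⟩) else s(u, u)
  have hf : ∀ p ∈ cutPairs r c A B, f p ∈ S := by
    rintro ⟨a, b⟩ ⟨ha, hb, hab⟩
    have h : a ∈ P ∧ b ∈ P := ⟨ha.1, hb.1⟩
    simp only [f, h, and_self, dite_true]
    exact hmem ⟨a, h.1⟩ ⟨b, h.2⟩ ha hb hab
  have hinj : Set.InjOn f (cutPairs r c A B) := by
    rintro ⟨a, b⟩ ⟨ha, hb, hab⟩ ⟨a', b'⟩ ⟨ha', hb', hab'⟩ heq
    have h : a ∈ P ∧ b ∈ P := ⟨ha.1, hb.1⟩
    have h' : a' ∈ P ∧ b' ∈ P := ⟨ha'.1, hb'.1⟩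
    simp only [f, h, h', and_self, dite_true] at heq
    rw [Sym2.eq_iff] at heq
    rcases heq with ⟨h1, h2⟩ | ⟨h1, h2⟩
    · simp only [Subtype.mk.injEq] at h1 h2
      rw [h1, h2]
    · simp only [Subtype.mk.injEq] at h1 h2
      exfalso
      subst h1
      exact hPdisj _ ha hb'
  have hfin : (cutPairs r c A B).Finite := Set.Finite.of_finite_image (hS.subset (by
    rintro _ ⟨p, hp, rfl⟩; exact hf p hp)) hinj
  obtain ⟨T, hT, hT2⟩ := key hr hc hA hB hcov hfin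
  refine ⟨T, hT.trans ?_, hT2⟩
  rw [← hinj.ncard_image]
  exact Set.ncard_le_ncard (by rintro _ ⟨p, hp, rfl⟩; exact hf p hp) hS

end CoverConn
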